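import Pool.Agent.Helper67.Conv.Product

set_option autoImplicit false
set_option linter.unusedSectionVars false
open MeasureTheory SchwartzMap
open scoped RealInnerProductSpace ContDiff

namespace Pool.Agent.Helper67.Conv

variable {M K : ℕ}

lemma sum_sq_orth {ι : Type*} [Fintype ι] [DecidableEq ι] (s g : ι → ℝ)
    (hs : ∀ i, s i * s i = 1) (h : ∀ i j, i ≠ j → g i * g j = 0) :
    (∑ i, s i * g i) ^ 2 = ∑ i, g i ^ 2 := by
  rw [sq, Finset.sum_mul_sum]
  refine Finset.sum_congr rfl fun i _ => ?_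
  rw [Finset.sum_eq_single i]
  · calc s i * g i * (s i * g i) = (s i * s i) * g i ^ 2 := by ring
      _ = g i ^ 2 := by rw [hs i, one_mul]
  · intro j _ hj
    calc s i * g i * (s j * g j) = s i * s j * (g i * g j) := by ring
      _ = 0 := by rw [h i j hj.symm, mul_zero]
  · intro h
    exact absurd (Finset.mem_univ i) h

/-- real sign -/
noncomputable def sg (τ : Equiv.Perm (Fin M)) : ℝ := ((Equiv.Perm.sign τ : ℤ) : ℝ)

lemma sg_mul_self (τ : Equiv.Perm (Fin M)) : sg τ * sg τ = 1 := by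
  unfold sg
  rcases Int.units_eq_one_or (Equiv.Perm.sign τ) with h | h
  · rw [h]; norm_num
  · rw [h]; norm_num

lemma Phi_orth {l s : ℝ} (hl : 0 < l) {R : Fin K → Space} (hsep : Sep l R)
    {a : Fin M → Fin K} (ha : Function.Injective a) (x : Config M) (τ τ' : Equiv.Perm (Fin M))
    (h : τ ≠ τ') : Phi l s R (a ∘ τ) x = 0 ∨ Phi l s R (a ∘ τ') x = 0 := by
  by_contra hcon
  rw [not_or] at hcon
  obtain ⟨h1, h2⟩ := hcon
  have : ∃ i, τ i ≠ τ' i := by
    by_contra hc
    push Not at hc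
    exact h (Equiv.ext hc)
  obtain ⟨i, hi⟩ := this
  have hne : a (τ i) ≠ a (τ' i) := fun hh => hi (ha hh)
  have h3 := lt_of_Phi_ne hl h1 i
  have h4 := lt_of_Phi_ne hl h2 i
  simp only [Function.comp_apply] at h3 h4
  have h5 := sep_unique hsep x i h3 hl hne.symm
  linarith

/-- The antisymmetrised function. -/
noncomputable def f0 {l s : ℝ} (hl : 0 < l) (hs : 0 < s) (R : Fin K → Space)
    (a : Fin M → Fin K) : 𝓢(Config M, ℂ) :=
  ∑ τ : Equiv.Perm (Fin M), ((sg τ : ℝ) : ℂ) • PhiS hl hs R (a ∘ τ)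

lemma f0_apply {l s : ℝ} (hl : 0 < l) (hs : 0 < s) (R : Fin K → Space)
    (a : Fin M → Fin K) (x : Config M) :
    f0 hl hs R a x = ((∑ τ : Equiv.Perm (Fin M), sg τ * Phi l s R (a ∘ τ) x : ℝ) : ℂ) := by
  unfold f0
  rw [SchwartzMap.sum_apply]
  push_cast
  refine Finset.sum_congr rfl fun τ _ => ?_
  simp only [Pi.smul_apply, SchwartzMap.smul_apply, PhiS_apply, smul_eq_mul]

lemma norm_f0 {l s : ℝ} (hl : 0 < l) (hs : 0 < s) {R : Fin K → Space} (hsep : Sep l R)
    {a : Fin M → Fin K} (ha : Function.Injective a) (x : Config M) :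
    ‖f0 hl hs R a x‖ ^ 2 = ∑ τ : Equiv.Perm (Fin M), Phi l s R (a ∘ τ) x ^ 2 := by
  rw [f0_apply, Complex.norm_real, Real.norm_eq_abs, sq_abs]
  refine sum_sq_orth _ _ sg_mul_self ?_
  intro τ τ' h
  rcases Phi_orth (s := s) hl hsep ha x τ τ' h with h1 | h1
  · rw [h1, zero_mul]
  · rw [h1, mul_zero]

lemma dv_f0 {l s : ℝ} (hl : 0 < l) (hs : 0 < s) (R : Fin K → Space)
    (a : Fin M → Fin K) (i : Fin M) (c : Fin 3) (x : Config M) :
    dv (f0 hl hs R a) (ee i c) x =
      ((∑ τ : Equiv.Perm (Fin M), sg τ * dPhi l s R (a ∘ τ) i c x : ℝ) : ℂ) := by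
  have h1 : ∀ τ : Equiv.Perm (Fin M), HasFDerivAt (Phi l s R (a ∘ τ))
      (fderiv ℝ (Phi l s R (a ∘ τ)) x) x := fun τ =>
    (((Phi_contDiff hs R (a ∘ τ)).differentiable (by simp)) x).hasFDerivAt
  have h2 : HasFDerivAt (fun y => ∑ τ : Equiv.Perm (Fin M), sg τ * Phi l s R (a ∘ τ) y)
      (∑ τ : Equiv.Perm (Fin M), sg τ • fderiv ℝ (Phi l s R (a ∘ τ)) x) x := by
    apply HasFDerivAt.fun_sum
    intro τ _
    exact (h1 τ).const_mul (sg τ)
  have h3 : HasFDerivAt (fun y => f0 hl hs R a y) (Complex.ofRealCLM.comp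
      (∑ τ : Equiv.Perm (Fin M), sg τ • fderiv ℝ (Phi l s R (a ∘ τ)) x)) x := by
    have e : (fun y => f0 hl hs R a y) = fun y =>
        Complex.ofRealCLM (∑ τ : Equiv.Perm (Fin M), sg τ * Phi l s R (a ∘ τ) y) := by
      funext y
      rw [f0_apply]
      rfl
    rw [e]
    exact Complex.ofRealCLM.hasFDerivAt.comp x h2
  unfold dv
  rw [h3.fderiv, ContinuousLinearMap.comp_apply, ContinuousLinearMap.sum_apply]
  rfl

lemma norm_dv_f0 {l s : ℝ} (hl : 0 < l) (hs : 0 < s) {R : Fin K → Space} (hsep : Sep l R)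
    {a : Fin M → Fin K} (ha : Function.Injective a) (i : Fin M) (c : Fin 3) (x : Config M) :
    ‖dv (f0 hl hs R a) (ee i c) x‖ ^ 2 =
      ∑ τ : Equiv.Perm (Fin M), dPhi l s R (a ∘ τ) i c x ^ 2 := by
  rw [dv_f0, Complex.norm_real, Real.norm_eq_abs, sq_abs]
  refine sum_sq_orth _ _ sg_mul_self ?_
  intro τ τ' h
  rcases Phi_orth (s := s) hl hsep ha x τ τ' h with h1 | h1
  · rw [dPhi_zero i c h1, zero_mul]
  · rw [dPhi_zero i c h1, mul_zero]

/-- The wave function: all spins up. -/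
noncomputable def psi {l s : ℝ} (hl : 0 < l) (hs : 0 < s) (R : Fin K → Space)
    (a : Fin M → Fin K) (r : ℝ) : Wave M := fun σ =>
  if σ = (fun _ => 0) then (r : ℂ) • f0 hl hs R a else 0

lemma qq_perm (x : Config M) (τ : Equiv.Perm (Fin M)) (i : Fin M) (P : Space) :
    qq (WithLp.toLp 2 (fun p => WithLp.ofLp x (τ p.1, p.2)) : Config M) i P =
      qq x (τ i) P := rfl

lemma Phi_perm (l s : ℝ) (R : Fin K → Space) (b : Fin M → Fin K) (x : Config M)
    (τ : Equiv.Perm (Fin M)) :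
    Phi l s R b (WithLp.toLp 2 (fun p => WithLp.ofLp x (τ p.1, p.2)) : Config M) =
      Phi l s R (b ∘ ⇑(τ⁻¹ : Equiv.Perm (Fin M))) x := by
  unfold Phi
  simp only [qq_perm]
  rw [← Equiv.prod_comp τ (fun i => uu l s (qq x i (R ((b ∘ (τ⁻¹ : Equiv.Perm (Fin M))) i))))]
  refine Finset.prod_congr rfl fun i _ => ?_
  simp

lemma psi_antisymmetric {l s : ℝ} (hl : 0 < l) (hs : 0 < s) (R : Fin K → Space)
    (a : Fin M → Fin K) (r : ℝ) : Antisymmetric (psi hl hs R a r) := by
  intro τ σ x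
  unfold psi
  by_cases h : σ = fun _ => 0
  · have h2 : σ ∘ τ = fun _ => 0 := by
      rw [h]
      rfl
    rw [if_pos h2, if_pos h]
    rw [SchwartzMap.smul_apply, SchwartzMap.smul_apply, f0_apply, f0_apply]
    have key : ∑ ρ : Equiv.Perm (Fin M), sg ρ * Phi l s R (a ∘ ρ)
        (WithLp.toLp 2 (fun p => WithLp.ofLp x (τ p.1, p.2)) : Config M) =
        sg τ * ∑ ρ : Equiv.Perm (Fin M), sg ρ * Phi l s R (a ∘ ρ) x := by
      rw [← Equiv.sum_comp (Equiv.mulRight τ), Finset.mul_sum]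
      refine Finset.sum_congr rfl fun ρ _ => ?_
      rw [Phi_perm]
      have e1 : (a ∘ ((Equiv.mulRight τ) ρ : Equiv.Perm (Fin M))) ∘
          (τ⁻¹ : Equiv.Perm (Fin M)) = a ∘ ρ := by
        funext i
        simp
      rw [e1]
      have e2 : sg ((Equiv.mulRight τ) ρ) = sg τ * sg ρ := by
        unfold sg
        rw [Equiv.coe_mulRight, Equiv.Perm.sign_mul]
        push_cast
        ring
      rw [e2]
      ring
    rw [key]
    unfold sg
    push_cast
    simp only [smul_eq_mul]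
    ring
  · have h2 : ¬ (σ ∘ τ = fun _ => 0) := by
      intro h3
      apply h
      funext i
      have := congrFun h3 (τ⁻¹ i)
      simpa using this
    rw [if_neg h2, if_neg h]
    simp

lemma psi_normSq {l s : ℝ} (hl : 0 < l) (hs : 0 < s) {R : Fin K → Space} (hsep : Sep l R)
    {a : Fin M → Fin K} (ha : Function.Injective a) (r : ℝ) :
    normSq (psi hl hs R a r) =
      r ^ 2 * ∑ τ : Equiv.Perm (Fin M), ∫ x : Config M, Phi l s R (a ∘ τ) x ^ 2 := by
  unfold normSq
  rw [Finset.sum_eq_single (fun _ => 0)]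
  · unfold psi
    rw [if_pos rfl, ← integral_finsetSum, ← integral_const_mul]
    · congr 1
      funext x
      rw [SchwartzMap.smul_apply, norm_smul, mul_pow, Complex.norm_real, Real.norm_eq_abs, sq_abs,
        norm_f0 hl hs hsep ha]
    · intro τ _
      have := normSq_integrable (PhiS hl hs R (a ∘ τ))
      simpa only [norm_PhiS] using this
  · intro σ _ hσ
    unfold psi
    rw [if_neg hσ]
    simp
  · intro h
    exact absurd (Finset.mem_univ _) h

lemma psi_energy {l s : ℝ} (hl : 0 < l) (hs : 0 < s) {R : Fin K → Space} (hsep : Sep l R)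
    {a : Fin M → Fin K} (ha : Function.Injective a) (r : ℝ) :
    energy (one K) R (psi hl hs R a r) =
      r ^ 2 * ∑ τ : Equiv.Perm (Fin M), ((∑ i, 1 / 2 * ∑ c, ∫ x : Config M,
        dPhi l s R (a ∘ τ) i c x ^ 2) +
        ∫ x : Config M, potential (one K) R x * Phi l s R (a ∘ τ) x ^ 2) := by
  have hd : ∀ (τ : Equiv.Perm (Fin M)) i c, Integrable (fun x : Config M =>
      dPhi l s R (a ∘ τ) i c x ^ 2) := by
    intro τ i c
    have := dPhi_sq_integrable hl hs R (a ∘ τ) i c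
    simpa only [sq] using this
  have hv : ∀ (τ : Equiv.Perm (Fin M)), Integrable (fun x : Config M =>
      potential (one K) R x * Phi l s R (a ∘ τ) x ^ 2) := by
    intro τ
    have := pot_int R (PhiS hl hs R (a ∘ τ))
    simpa only [norm_PhiS] using this
  have hkin : kinetic (psi hl hs R a r) = r ^ 2 * ∑ τ : Equiv.Perm (Fin M),
      ∑ i, 1 / 2 * ∑ c, ∫ x : Config M, dPhi l s R (a ∘ τ) i c x ^ 2 := by
    unfold kinetic
    rw [Finset.sum_eq_single (fun _ => 0)]
    · rw [kin_sum]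
      have e1 : ∀ i c, ∫ x : Config M, ‖dv (psi hl hs R a r fun _ => 0) (ee i c) x‖ ^ 2 =
          r ^ 2 * ∑ τ : Equiv.Perm (Fin M), ∫ x : Config M, dPhi l s R (a ∘ τ) i c x ^ 2 := by
        intro i c
        rw [← integral_finsetSum _ fun τ _ => hd τ i c, ← integral_const_mul]
        congr 1
        funext x
        have e2 : dv (psi hl hs R a r fun _ => 0) (ee i c) x =
            (r : ℂ) * dv (f0 hl hs R a) (ee i c) x := by
          unfold psi
          rw [if_pos rfl, dv_eq, dv_eq, LineDeriv.lineDerivOp_smul, SchwartzMap.smul_apply,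
            smul_eq_mul]
        rw [e2, norm_mul, mul_pow, Complex.norm_real, Real.norm_eq_abs, sq_abs,
          norm_dv_f0 hl hs hsep ha]
      simp_rw [e1]
      rw [Finset.sum_comm, Finset.mul_sum]
      refine Finset.sum_congr rfl fun i _ => ?_
      rw [← Finset.mul_sum, ← Finset.mul_sum, Finset.sum_comm]
      ring
    · intro σ _ hσ
      unfold psi
      rw [if_neg hσ]
      simp
    · intro h
      exact absurd (Finset.mem_univ _) h
  have hpot : ∑ σ, ∫ x : Config M, potential (one K) R x * ‖psi hl hs R a r σ x‖ ^ 2 =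
      r ^ 2 * ∑ τ : Equiv.Perm (Fin M),
        ∫ x : Config M, potential (one K) R x * Phi l s R (a ∘ τ) x ^ 2 := by
    rw [Finset.sum_eq_single (fun _ => 0)]
    · unfold psi
      rw [if_pos rfl, ← integral_finsetSum _ fun τ _ => hv τ, ← integral_const_mul]
      congr 1
      funext x
      rw [SchwartzMap.smul_apply, norm_smul, mul_pow, Complex.norm_real, Real.norm_eq_abs, sq_abs,
        norm_f0 hl hs hsep ha, ← Finset.mul_sum]
      ring
    · intro σ _ hσ
      unfold psi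
      rw [if_neg hσ]
      simp
    · intro h
      exact absurd (Finset.mem_univ _) h
  unfold energy
  rw [hkin, hpot, ← mul_add, ← Finset.sum_add_distrib]

lemma Phi_int_pos {l s : ℝ} (hl : 0 < l) (hs : 0 < s) (R : Fin K → Space)
    (b : Fin M → Fin K) : 0 < ∫ x : Config M, Phi l s R b x ^ 2 := by
  have hc : Continuous (fun x : Config M => Phi l s R b x ^ 2) := (Phi_continuous hs R b).pow 2
  have hi : Integrable (fun x : Config M => Phi l s R b x ^ 2) := by
    have := normSq_integrable (PhiS hl hs R b)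
    simpa only [norm_PhiS] using this
  have hnn : 0 ≤ (fun x : Config M => Phi l s R b x ^ 2) := fun x => by positivity
  rw [integral_pos_iff_support_of_nonneg hnn hi]
  refine (hc.isOpen_support).measure_pos _ ?_
  refine ⟨WithLp.toLp 2 (fun p => WithLp.ofLp (R (b p.1)) p.2), ?_⟩
  rw [Function.mem_support]
  apply pow_ne_zero
  unfold Phi
  rw [Finset.prod_ne_zero_iff]
  intro i _
  refine (uu_pos hl ?_).ne'
  have : qq (WithLp.toLp 2 (fun p => WithLp.ofLp (R (b p.1)) p.2) : Config M) i (R (b i)) = 0 := by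
    unfold qq
    simp
  rw [this]
  positivity

/-- Existence of a normalised trial function with small energy. -/
lemma exists_trial {κ lam l w : ℝ} (hκ : 0 < κ) (hκ1 : κ ≤ 1) (hl : 6 ≤ l) (hlam : 4 * l ≤ lam)
    {P : Fin K → Space} (hP : ∀ j k, j ≠ k → 1 ≤ ‖P j - P k‖) (a : Fin M → Fin K)
    (ha : Function.Injective a) (hw : ∀ τ : Equiv.Perm (Fin M), Wc P (a ∘ τ) ≤ w) :
    ∃ ψ : Wave M, Antisymmetric ψ ∧ normSq ψ = 1 ∧ energy (one K) (sc lam P) ψ ≤
      M * (-(1 / 2) + κ ^ 2 + 8 / l ^ 2) + w / lam + (4 * M ^ 2 + 2 * M * K) * l / lam ^ 2 := by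
  have hl0 : 0 < l := by linarith
  have hlam0 : 0 < lam := by linarith
  have hs : 0 < κ ^ 3 := by positivity
  have hsep : Sep l (sc lam P) := sc_sep hlam0 (by linarith) hP
  set N : ℝ := ∑ τ : Equiv.Perm (Fin M), ∫ x : Config M,
    Phi l (κ ^ 3) (sc lam P) (a ∘ τ) x ^ 2 with hN
  have hNpos : 0 < N := by
    rw [hN]
    refine Finset.sum_pos (fun τ _ => Phi_int_pos hl0 hs _ _) ?_
    exact Finset.univ_nonempty
  set r : ℝ := 1 / Real.sqrt N with hr
  have hrN : r ^ 2 * N = 1 := by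
    rw [hr, div_pow, one_pow, Real.sq_sqrt hNpos.le]
    field_simp
  refine ⟨psi hl0 hs (sc lam P) a r, psi_antisymmetric _ _ _ _ _, ?_, ?_⟩
  · rw [psi_normSq hl0 hs hsep ha, hrN]
  · rw [psi_energy hl0 hs hsep ha]
    have h1 : ∀ τ : Equiv.Perm (Fin M), ((∑ i, 1 / 2 * ∑ c, ∫ x : Config M,
        dPhi l (κ ^ 3) (sc lam P) (a ∘ τ) i c x ^ 2) + ∫ x : Config M,
        potential (one K) (sc lam P) x * Phi l (κ ^ 3) (sc lam P) (a ∘ τ) x ^ 2) ≤
        (M * (-(1 / 2) + κ ^ 2 + 8 / l ^ 2) + w / lam + (4 * M ^ 2 + 2 * M * K) * l / lam ^ 2) *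
          ∫ x : Config M, Phi l (κ ^ 3) (sc lam P) (a ∘ τ) x ^ 2 := by
      intro τ
      refine (product_energy hκ hκ1 hl hlam hP (a ∘ τ) (ha.comp τ.injective)).trans ?_
      refine mul_le_mul_of_nonneg_right ?_ (Phi_int_pos hl0 hs _ _).le
      unfold Eup
      have : Wc P (a ∘ τ) / lam ≤ w / lam := div_le_div_of_nonneg_right (hw τ) hlam0.le
      linarith
    have h2 := Finset.sum_le_sum
      (fun τ (_ : τ ∈ (Finset.univ : Finset (Equiv.Perm (Fin M)))) => h1 τ)
    rw [← Finset.mul_sum, ← hN] at h2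
    calc _ ≤ r ^ 2 * _ := mul_le_mul_of_nonneg_left h2 (by positivity)
      _ = _ := by
        rw [mul_comm _ N, ← mul_assoc, hrN, one_mul]

end Pool.Agent.Helper67.Conv
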