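import Pool.Agent.Helper67.Conv.Antisym

set_option autoImplicit false
set_option linter.unusedSectionVars false
open MeasureTheory SchwartzMap
open scoped RealInnerProductSpace ContDiff

namespace Pool.Agent.Helper67.Conv

/-- First coordinates of the ten points. -/
def cX : Fin 10 → ℤ := ![5, -5, 15, -15, 0, 0, 0, 0, 0, 0]

/-- Second coordinates of the ten points. -/
def cY : Fin 10 → ℤ := ![0, 0, 0, 0, 6, -6, 14, -14, 19, -19]

/-- Squared distances. -/
def sd (j k : Fin 10) : ℤ := (cX j - cX k) ^ 2 + (cY j - cY k) ^ 2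

/-- The ten points. -/
noncomputable def pt (j : Fin 10) : Space := WithLp.toLp 2 ![(cX j : ℝ), (cY j : ℝ), 0]

lemma norm_pt (j k : Fin 10) : ‖pt j - pt k‖ = Real.sqrt (sd j k) := by
  rw [EuclideanSpace.norm_eq]
  congr 1
  rw [Fin.sum_univ_three]
  simp only [pt, sd, PiLp.sub_apply, Real.norm_eq_abs, sq_abs]
  push_cast
  simp

/-- Table of `⌊10 ^ 7 / distance⌋`. -/
def tab : Fin 10 → Fin 10 → ℤ := ![
  ![0, 1000000, 1000000, 500000, 1280368, 1280368, 672672, 672672, 508986, 508986],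
  ![1000000, 0, 500000, 1000000, 1280368, 1280368, 672672, 672672, 508986, 508986],
  ![1000000, 500000, 0, 333333, 618984, 618984, 487370, 487370, 413096, 413096],
  ![500000, 1000000, 333333, 0, 618984, 618984, 487370, 487370, 413096, 413096],
  ![1280368, 1280368, 618984, 618984, 0, 833333, 1250000, 500000, 769230, 400000],
  ![1280368, 1280368, 618984, 618984, 833333, 0, 500000, 1250000, 400000, 769230],
  ![672672, 672672, 487370, 487370, 1250000, 500000, 0, 357142, 2000000, 303030],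
  ![672672, 672672, 487370, 487370, 500000, 1250000, 357142, 0, 303030, 2000000],
  ![508986, 508986, 413096, 413096, 769230, 400000, 2000000, 303030, 0, 263157],
  ![508986, 508986, 413096, 413096, 400000, 769230, 303030, 2000000, 263157, 0]]

lemma tab_check : ∀ j k : Fin 10, j ≠ k → 1 ≤ sd j k ∧ 0 ≤ tab j k ∧
    tab j k ^ 2 * sd j k ≤ 10 ^ 14 ∧ 10 ^ 14 ≤ (tab j k + 1) ^ 2 * sd j k := by
  decide +kernel

lemma pt_sep (j k : Fin 10) (h : j ≠ k) : 1 ≤ ‖pt j - pt k‖ := by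
  rw [norm_pt]
  obtain ⟨h1, _⟩ := tab_check j k h
  rw [Real.one_le_sqrt]
  exact_mod_cast h1

lemma tab_bounds (j k : Fin 10) (h : j ≠ k) :
    (tab j k : ℝ) / 10 ^ 7 ≤ 1 / ‖pt j - pt k‖ ∧
      1 / ‖pt j - pt k‖ ≤ ((tab j k : ℝ) + 1) / 10 ^ 7 := by
  obtain ⟨h1, h2, h3, h4⟩ := tab_check j k h
  have g1 : (1 : ℝ) ≤ sd j k := by exact_mod_cast h1
  have g2 : (0 : ℝ) ≤ tab j k := by exact_mod_cast h2
  have g3 : (tab j k : ℝ) ^ 2 * sd j k ≤ 10 ^ 14 := by exact_mod_cast h3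
  have g4 : (10 : ℝ) ^ 14 ≤ ((tab j k : ℝ) + 1) ^ 2 * sd j k := by exact_mod_cast h4
  have hs : 0 < Real.sqrt (sd j k) := Real.sqrt_pos.mpr (by linarith)
  have hsq : Real.sqrt (sd j k) ^ 2 = sd j k := Real.sq_sqrt (by linarith)
  rw [norm_pt]
  constructor
  · rw [div_le_div_iff₀ (by norm_num) hs, one_mul]
    by_contra hcon
    rw [not_le] at hcon
    have := mul_self_lt_mul_self (by norm_num) hcon
    nlinarith
  · rw [div_le_div_iff₀ hs (by norm_num), one_mul]
    by_contra hcon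
    rw [not_le] at hcon
    have := mul_self_lt_mul_self (by positivity) hcon
    nlinarith

/-- Scaled lower bound for the classical energy. -/
def Wlo {M : ℕ} (b : Fin M → Fin 10) : ℤ :=
  (∑ i : Fin M, ∑ j : Fin M, if i < j then tab (b i) (b j) else 0)
    - ∑ i : Fin M, ∑ k ∈ Finset.univ.erase (b i), (tab (b i) k + 1)

/-- Scaled upper bound for the classical energy. -/
def Whi {M : ℕ} (b : Fin M → Fin 10) : ℤ :=
  (∑ i : Fin M, ∑ j : Fin M, if i < j then tab (b i) (b j) + 1 else 0)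
    - ∑ i : Fin M, ∑ k ∈ Finset.univ.erase (b i), tab (b i) k

lemma Wlo_le {M : ℕ} (b : Fin M → Fin 10) (hb : Function.Injective b) :
    (Wlo b : ℝ) / 10 ^ 7 ≤ Wc pt b := by
  unfold Wlo Wc
  push_cast
  rw [sub_div, Finset.sum_div, Finset.sum_div]
  refine sub_le_sub ?_ ?_
  · refine Finset.sum_le_sum fun i _ => ?_
    rw [Finset.sum_div]
    refine Finset.sum_le_sum fun j _ => ?_
    split_ifs with h
    · exact (tab_bounds _ _ (fun hh => h.ne (hb hh))).1
    · simp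
  · refine Finset.sum_le_sum fun i _ => ?_
    rw [Finset.sum_div]
    refine Finset.sum_le_sum fun k hk => ?_
    exact (tab_bounds _ _ (Finset.ne_of_mem_erase hk).symm).2

lemma le_Whi {M : ℕ} (b : Fin M → Fin 10) (hb : Function.Injective b) :
    Wc pt b ≤ (Whi b : ℝ) / 10 ^ 7 := by
  unfold Whi Wc
  push_cast
  rw [sub_div, Finset.sum_div, Finset.sum_div]
  refine sub_le_sub ?_ ?_
  · refine Finset.sum_le_sum fun i _ => ?_
    rw [Finset.sum_div]
    refine Finset.sum_le_sum fun j _ => ?_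
    split_ifs with h
    · exact (tab_bounds _ _ (fun hh => h.ne (hb hh))).2
    · simp
  · refine Finset.sum_le_sum fun i _ => ?_
    rw [Finset.sum_div]
    refine Finset.sum_le_sum fun k hk => ?_
    exact (tab_bounds _ _ (Finset.ne_of_mem_erase hk).symm).1

/-- The optimal pair. -/
def a2 : Fin 2 → Fin 10 := ![4, 5]

/-- The optimal quadruple. -/
def a4 : Fin 4 → Fin 10 := ![0, 1, 6, 7]

/-- Some triple. -/
def a3 : Fin 3 → Fin 10 := ![0, 4, 7]

lemma a2_inj : Function.Injective a2 := by decide +kernel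
lemma a3_inj : Function.Injective a3 := by decide +kernel
lemma a4_inj : Function.Injective a4 := by decide +kernel

lemma a2_check : ∀ τ : Equiv.Perm (Fin 2), Whi (a2 ∘ τ) ≤ -14269200 := by decide +kernel
lemma a4_check : ∀ τ : Equiv.Perm (Fin 4), Whi (a4 ∘ τ) ≤ -24260780 := by decide +kernel
lemma a3_check : ∀ τ : Equiv.Perm (Fin 3), Whi (a3 ∘ τ) ≤ 0 := by decide +kernel

lemma w3_check : ∀ i j k : Fin 10, i ≠ j → i ≠ k → j ≠ k → -19252562 ≤ Wlo ![i, j, k] := by
  decide +kernel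

lemma w2_le (τ : Equiv.Perm (Fin 2)) : Wc pt (a2 ∘ τ) ≤ -1.42692 := by
  have h1 := le_Whi (a2 ∘ τ) (a2_inj.comp τ.injective)
  have h2 : (Whi (a2 ∘ τ) : ℝ) ≤ -14269200 := by exact_mod_cast a2_check τ
  have h3 : (Whi (a2 ∘ τ) : ℝ) / 10 ^ 7 ≤ -14269200 / 10 ^ 7 :=
    div_le_div_of_nonneg_right h2 (by norm_num)
  norm_num at h3 ⊢
  linarith

lemma w4_le (τ : Equiv.Perm (Fin 4)) : Wc pt (a4 ∘ τ) ≤ -2.426078 := by
  have h1 := le_Whi (a4 ∘ τ) (a4_inj.comp τ.injective)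
  have h2 : (Whi (a4 ∘ τ) : ℝ) ≤ -24260780 := by exact_mod_cast a4_check τ
  have h3 : (Whi (a4 ∘ τ) : ℝ) / 10 ^ 7 ≤ -24260780 / 10 ^ 7 :=
    div_le_div_of_nonneg_right h2 (by norm_num)
  norm_num at h3 ⊢
  linarith

lemma w3_le (τ : Equiv.Perm (Fin 3)) : Wc pt (a3 ∘ τ) ≤ 0 := by
  have h1 := le_Whi (a3 ∘ τ) (a3_inj.comp τ.injective)
  have h2 : (Whi (a3 ∘ τ) : ℝ) ≤ 0 := by exact_mod_cast a3_check τ
  have h3 : (Whi (a3 ∘ τ) : ℝ) / 10 ^ 7 ≤ 0 / 10 ^ 7 :=
    div_le_div_of_nonneg_right h2 (by norm_num)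
  norm_num at h3 ⊢
  linarith

lemma le_w3 (a : Fin 3 → Fin 10) (ha : Function.Injective a) : -1.9252562 ≤ Wc pt a := by
  have h1 := Wlo_le a ha
  have ea : a = ![a 0, a 1, a 2] := by
    funext i
    fin_cases i <;> rfl
  have h2 : -19252562 ≤ Wlo a := by
    rw [ea]
    apply w3_check
    · exact fun h => absurd (ha h) (by decide)
    · exact fun h => absurd (ha h) (by decide)
    · exact fun h => absurd (ha h) (by decide)
  have h3 : (-19252562 : ℝ) ≤ Wlo a := by exact_mod_cast h2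
  have h4 : (-19252562 : ℝ) / 10 ^ 7 ≤ (Wlo a : ℝ) / 10 ^ 7 :=
    div_le_div_of_nonneg_right h3 (by norm_num)
  norm_num at h4 ⊢
  linarith

end Pool.Agent.Helper67.Conv
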