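import Mathlib

set_option autoImplicit false
open MeasureTheory SchwartzMap

namespace Pool.Agent.Helper67.Conv

/-- Physical space. -/
abbrev Space := EuclideanSpace ℝ (Fin 3)

/-- Configuration space of `M` electrons: the coordinate `(i, c)` is the `c`-th coordinate of the
position of electron `i`. -/
abbrev Config (M : ℕ) := EuclideanSpace ℝ (Fin M × Fin 3)

/-- The position of electron `i` in the configuration `x`. -/
noncomputable def pos {M : ℕ} (x : Config M) (i : Fin M) : Space :=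
  WithLp.toLp 2 (fun c => WithLp.ofLp x (i, c))

/-- Wave functions of `M` spin-1/2 electrons: one Schwartz function on configuration space for
every spin configuration. -/
abbrev Wave (M : ℕ) := (Fin M → Fin 2) → 𝓢(Config M, ℂ)

/-- Antisymmetry under simultaneous permutation of positions and spins. -/
def Antisymmetric {M : ℕ} (ψ : Wave M) : Prop :=
  ∀ (τ : Equiv.Perm (Fin M)) (σ : Fin M → Fin 2) (x : Config M),
    ψ (σ ∘ τ) (WithLp.toLp 2 (fun p => WithLp.ofLp x (τ p.1, p.2))) =
      ((Equiv.Perm.sign τ : ℤ) : ℂ) * ψ σ x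

/-- The squared `L²` norm. -/
noncomputable def normSq {M : ℕ} (ψ : Wave M) : ℝ := ∑ σ, ∫ x : Config M, ‖ψ σ x‖ ^ 2

/-- The kinetic energy `⟨ψ, -∑ (1/2) Δ_i ψ⟩ = (1/2) ∫ |∇ψ|²`. -/
noncomputable def kinetic {M : ℕ} (ψ : Wave M) : ℝ :=
  ∑ σ, ∫ x : Config M, 1 / 2 * ∑ p : Fin M × Fin 3,
    ‖fderiv ℝ (fun y => ψ σ y) x (EuclideanSpace.single p 1)‖ ^ 2

/-- The potential energy of `M` electrons in the field of nuclei of charges `Z k` at `R k`. -/
noncomputable def potential {M K : ℕ} (Z : Fin K → ℕ) (R : Fin K → Space) (x : Config M) : ℝ :=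
  (∑ i : Fin M, ∑ j : Fin M, if i < j then 1 / ‖pos x i - pos x j‖ else 0)
    - ∑ i : Fin M, ∑ k : Fin K, (Z k : ℝ) / ‖pos x i - R k‖

/-- The quadratic form `⟨ψ, H_M ψ⟩` of the Coulomb Hamiltonian. -/
noncomputable def energy {M K : ℕ} (Z : Fin K → ℕ) (R : Fin K → Space) (ψ : Wave M) : ℝ :=
  kinetic ψ + ∑ σ, ∫ x : Config M, potential Z R x * ‖ψ σ x‖ ^ 2

/-- The energies `⟨ψ, H_M ψ⟩` of all normalised antisymmetric Schwartz wave functions of `M`
electrons. -/
def energies {K : ℕ} (Z : Fin K → ℕ) (R : Fin K → Space) (M : ℕ) : Set ℝ :=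
  {e : ℝ | ∃ ψ : Wave M, Antisymmetric ψ ∧ normSq ψ = 1 ∧ energy Z R ψ = e}

/-- The ground state energy `E(M) = inf spec H_M`: the infimum of the form over normalised
antisymmetric Schwartz wave functions of `M` electrons. -/
noncomputable def groundEnergy {K : ℕ} (Z : Fin K → ℕ) (R : Fin K → Space) (M : ℕ) : ℝ :=
  sInf (energies Z R M)

/-- The ionization energy `I[M] = E(M - 1) - E(M)`. -/
noncomputable def ionization {K : ℕ} (Z : Fin K → ℕ) (R : Fin K → Space) (M : ℕ) : ℝ :=
  groundEnergy Z R (M - 1) - groundEnergy Z R M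

end Pool.Agent.Helper67.Conv
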