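import Pool.Agent.Helper67.Conv.KinLower

set_option autoImplicit false
set_option linter.unusedSectionVars false
open MeasureTheory SchwartzMap
open scoped RealInnerProductSpace

namespace Pool.Agent.Helper67.Conv

variable {M K : ℕ}

/-- unit charges -/
abbrev one (K : ℕ) : Fin K → ℕ := fun _ => 1

lemma norm_pos_pos (x : Config M) (i j : Fin M) : ‖pos x i - pos x j‖ = dd x i j := by
  rw [EuclideanSpace.norm_eq]
  simp [pos, dd]

/-- kinetic energy of one component -/
lemma kin_sum (f : 𝓢(Config M, ℂ)) :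
    ∫ x : Config M, 1 / 2 * ∑ p : Fin M × Fin 3,
      ‖fderiv ℝ (fun y => f y) x (EuclideanSpace.single p 1)‖ ^ 2 =
      ∑ i, 1 / 2 * ∑ c, ∫ x : Config M, ‖dv f (ee i c) x‖ ^ 2 := by
  rw [integral_const_mul]
  change 1 / 2 * ∫ x : Config M, ∑ p : Fin M × Fin 3,
      ‖dv f (EuclideanSpace.single p 1) x‖ ^ 2 = _
  rw [integral_finsetSum _ (fun p _ => dv_normSq_integrable f (EuclideanSpace.single p 1))]
  rw [Fintype.sum_prod_type, Finset.mul_sum]
  rfl

lemma rep_int (f : 𝓢(Config M, ℂ)) (i j : Fin M) :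
    Integrable (fun x : Config M =>
      (if i < j then 1 / ‖pos x i - pos x j‖ else 0) * ‖f x‖ ^ 2) := by
  by_cases h : i < j
  · simp only [h, if_true, norm_pos_pos]
    exact rep_integrable (n := Fin M) f i j h.ne
  · simp [h]

lemma pot_int (R : Fin K → Space) (f : 𝓢(Config M, ℂ)) :
    Integrable (fun x : Config M => potential (one K) R x * ‖f x‖ ^ 2) := by
  have h1 : Integrable (fun x : Config M => ∑ i : Fin M, ∑ j : Fin M,
      (if i < j then 1 / ‖pos x i - pos x j‖ else 0) * ‖f x‖ ^ 2) :=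
    integrable_finsetSum _ fun i _ => integrable_finsetSum _ fun j _ => rep_int f i j
  have h2 : Integrable (fun x : Config M => ∑ i : Fin M, ∑ k : Fin K,
      1 / ‖pos x i - R k‖ * ‖f x‖ ^ 2) := by
    refine integrable_finsetSum _ fun i _ => integrable_finsetSum _ fun k _ => ?_
    simp only [norm_pos_sub]
    exact att_int f i (R k)
  refine (h1.sub h2).congr (Filter.Eventually.of_forall fun x => ?_)
  simp only [Pi.sub_apply, potential, sub_mul, Finset.sum_mul, Nat.cast_one]

/-- The total lower bound potential. -/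
noncomputable def Theta (l : ℝ) (R : Fin K → Space) (x : Config M) : ℝ :=
  (∑ i, 1 / 2 * (aa0 l R i x - bb l R i x)) + potential (one K) R x

lemma theta_int {l : ℝ} (hl : 0 < l) (R : Fin K → Space) (f : 𝓢(Config M, ℂ)) :
    Integrable (fun x : Config M => Theta l R x * ‖f x‖ ^ 2) := by
  have h1 : Integrable (fun x : Config M => ∑ i : Fin M,
      1 / 2 * (aa0 l R i x * ‖f x‖ ^ 2 - bb l R i x * ‖f x‖ ^ 2)) :=
    integrable_finsetSum _ fun i _ =>
      ((aa0_int l R f i).sub (bb_int hl R f i)).const_mul (1 / 2)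
  refine (h1.add (pot_int R f)).congr (Filter.Eventually.of_forall fun x => ?_)
  simp only [Pi.add_apply, Theta, add_mul, Finset.sum_mul]
  congr 1
  refine Finset.sum_congr rfl fun i _ => ?_
  ring

lemma component_ge {l : ℝ} (hl : 0 < l) {R : Fin K → Space} (hsep : Sep l R)
    (f : 𝓢(Config M, ℂ)) :
    ∫ x : Config M, Theta l R x * ‖f x‖ ^ 2 ≤
      (∫ x : Config M, 1 / 2 * ∑ p : Fin M × Fin 3,
        ‖fderiv ℝ (fun y => f y) x (EuclideanSpace.single p 1)‖ ^ 2) +
      ∫ x : Config M, potential (one K) R x * ‖f x‖ ^ 2 := by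
  have e1 : ∫ x : Config M, Theta l R x * ‖f x‖ ^ 2 =
      (∑ i, 1 / 2 * ∫ x : Config M, (aa0 l R i x - bb l R i x) * ‖f x‖ ^ 2) +
      ∫ x : Config M, potential (one K) R x * ‖f x‖ ^ 2 := by
    have hi : ∀ i, Integrable (fun x : Config M =>
        1 / 2 * ((aa0 l R i x - bb l R i x) * ‖f x‖ ^ 2)) := by
      intro i
      refine (((aa0_int l R f i).sub (bb_int hl R f i)).const_mul (1 / 2)).congr
        (Filter.Eventually.of_forall fun x => ?_)
      simp only [Pi.sub_apply]
      ring
    have h0 : (fun x : Config M => Theta l R x * ‖f x‖ ^ 2) = fun x =>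
        (∑ i, 1 / 2 * ((aa0 l R i x - bb l R i x) * ‖f x‖ ^ 2)) +
        potential (one K) R x * ‖f x‖ ^ 2 := by
      funext x
      rw [Theta, add_mul, Finset.sum_mul]
      congr 1
      refine Finset.sum_congr rfl fun i _ => ?_
      ring
    rw [h0, integral_add (integrable_finsetSum _ fun i _ => hi i) (pot_int R f),
      integral_finsetSum _ fun i _ => hi i]
    congr 1
    refine Finset.sum_congr rfl fun i _ => ?_
    rw [integral_const_mul]
  rw [e1, kin_sum]
  refine add_le_add ?_ le_rfl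
  refine Finset.sum_le_sum fun i _ => ?_
  exact mul_le_mul_of_nonneg_left (kin_lower hl hsep f i) (by norm_num)

/-- An almost everywhere lower bound for `Theta` is a lower bound for the energy. -/
lemma energy_ge {l : ℝ} (hl : 0 < l) {R : Fin K → Space} (hsep : Sep l R) {c : ℝ}
    (hc : ∀ᵐ x : Config M, c ≤ Theta l R x) (ψ : Wave M) :
    c * normSq ψ ≤ energy (one K) R ψ := by
  unfold energy kinetic normSq
  rw [← Finset.sum_add_distrib, Finset.mul_sum]
  refine Finset.sum_le_sum fun σ _ => ?_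
  refine le_trans ?_ (component_ge hl hsep (ψ σ))
  rw [← integral_const_mul]
  refine integral_mono_ae ((normSq_integrable (ψ σ)).const_mul c) (theta_int hl R (ψ σ)) ?_
  filter_upwards [hc] with x hx
  exact mul_le_mul_of_nonneg_right hx (by positivity)

lemma bddBelow_energy {l : ℝ} (hl : 0 < l) {R : Fin K → Space} (hsep : Sep l R) {c : ℝ}
    (hc : ∀ᵐ x : Config M, c ≤ Theta l R x) :
    BddBelow (energies (one K) R M) := by
  refine ⟨c, ?_⟩
  rintro e ⟨ψ, _, hn, rfl⟩
  have := energy_ge hl hsep hc ψ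
  rw [hn, mul_one] at this
  exact this

lemma groundEnergy_ge {l : ℝ} (hl : 0 < l) {R : Fin K → Space} (hsep : Sep l R) {c : ℝ}
    (hc : ∀ᵐ x : Config M, c ≤ Theta l R x)
    (hne : ∃ ψ : Wave M, Antisymmetric ψ ∧ normSq ψ = 1) :
    c ≤ groundEnergy (one K) R M := by
  unfold groundEnergy
  obtain ⟨ψ, h1, h2⟩ := hne
  refine le_csInf ⟨energy (one K) R ψ, ψ, h1, h2, rfl⟩ ?_
  rintro e ⟨ψ, _, hn, rfl⟩
  have := energy_ge hl hsep hc ψ
  rw [hn, mul_one] at this
  exact this

end Pool.Agent.Helper67.Conv
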