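import Pool.Agent.Helper67.Conv.Kin
import Pool.Agent.Helper67.Pieces

set_option autoImplicit false
set_option linter.unusedSectionVars false
open MeasureTheory SchwartzMap
open scoped RealInnerProductSpace

namespace Pool.Agent.Helper67.Conv

/-- Cut-off argument. -/
noncomputable def pp (l q : ℝ) : ℝ := (4 * q / l ^ 2 - 1) / 3

/-- the transition -/
noncomputable def tt (l q : ℝ) : ℝ := Real.smoothTransition (pp l q)

/-- The cut-off function, as a function of the squared distance. -/
noncomputable def chi (l q : ℝ) : ℝ := 1 - (tt l q) ^ 2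

/-- its derivative -/
noncomputable def chi' (l q : ℝ) : ℝ :=
  -(2 * tt l q * (deriv Real.smoothTransition (pp l q) * (4 / (3 * l ^ 2))))

lemma smoothTransition_hasDerivAt (x : ℝ) :
    HasDerivAt Real.smoothTransition (deriv Real.smoothTransition x) x := by
  apply DifferentiableAt.hasDerivAt
  exact (Real.smoothTransition.contDiff (n := 1)).differentiable (by norm_num) x

lemma exists_bound_deriv : ∃ C : ℝ, 0 < C ∧ ∀ x, |deriv Real.smoothTransition x| ≤ C := by
  have hc : Continuous (deriv Real.smoothTransition) :=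
    (Real.smoothTransition.contDiff (n := 1)).continuous_deriv le_rfl
  obtain ⟨C, hC⟩ := (isCompact_Icc (a := (0 : ℝ)) (b := 1)).exists_bound_of_continuousOn
    hc.continuousOn
  refine ⟨|C| + 1, by positivity, fun x => ?_⟩
  by_cases h : x ∈ Set.Icc (0 : ℝ) 1
  · have := hC x h
    rw [Real.norm_eq_abs] at this
    exact this.trans ((le_abs_self C).trans (by linarith))
  · have h0 : deriv Real.smoothTransition x = 0 := by
      rw [Set.mem_Icc, not_and_or, not_le, not_le] at h
      rcases h with h | h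
      · have : Real.smoothTransition =ᶠ[nhds x] fun _ => 0 := by
          filter_upwards [Iio_mem_nhds h] with y hy
          exact Real.smoothTransition.zero_of_nonpos (le_of_lt hy)
        rw [this.deriv_eq]
        simp
      · have : Real.smoothTransition =ᶠ[nhds x] fun _ => 1 := by
          filter_upwards [Ioi_mem_nhds h] with y hy
          exact Real.smoothTransition.one_of_one_le (le_of_lt hy)
        rw [this.deriv_eq]
        simp
    rw [h0, abs_zero]
    positivity

lemma deriv_eq_zero_of_one_lt {x : ℝ} (h : 1 ≤ x) : deriv Real.smoothTransition x = 0 := by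
  rcases eq_or_lt_of_le h with h | h
  · -- a maximum
    apply IsLocalMax.deriv_eq_zero
    refine Filter.Eventually.of_forall fun y => ?_
    rw [Real.smoothTransition.one_of_one_le h.le]
    exact Real.smoothTransition.le_one y
  · have : Real.smoothTransition =ᶠ[nhds x] fun _ => 1 := by
      filter_upwards [Ioi_mem_nhds h] with y hy
      exact Real.smoothTransition.one_of_one_le (le_of_lt hy)
    rw [this.deriv_eq]
    simp

lemma deriv_smoothTransition_nonneg (x : ℝ) : 0 ≤ deriv Real.smoothTransition x :=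
  Real.smoothTransition.monotone.deriv_nonneg

lemma tt_nonneg (l q : ℝ) : 0 ≤ tt l q := Real.smoothTransition.nonneg _

lemma tt_le_one (l q : ℝ) : tt l q ≤ 1 := Real.smoothTransition.le_one _

lemma tt_eq_zero {l q : ℝ} (hl : 0 < l) (h : q ≤ l ^ 2 / 4) : tt l q = 0 := by
  apply Real.smoothTransition.zero_of_nonpos
  unfold pp
  have : 4 * q / l ^ 2 ≤ 1 := by
    rw [div_le_one (by positivity)]
    linarith
  linarith

lemma tt_eq_one {l q : ℝ} (hl : 0 < l) (h : l ^ 2 ≤ q) : tt l q = 1 := by
  apply Real.smoothTransition.one_of_one_le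
  unfold pp
  have : 4 ≤ 4 * q / l ^ 2 := by
    rw [le_div_iff₀ (by positivity)]
    linarith
  linarith

lemma chi_nonneg (l q : ℝ) : 0 ≤ chi l q := by
  unfold chi
  have h1 := tt_nonneg l q
  have h2 := tt_le_one l q
  nlinarith

lemma chi_le_one (l q : ℝ) : chi l q ≤ 1 := by
  unfold chi
  nlinarith [sq_nonneg (tt l q)]

lemma chi_eq_zero {l q : ℝ} (hl : 0 < l) (h : l ^ 2 ≤ q) : chi l q = 0 := by
  unfold chi
  rw [tt_eq_one hl h]
  norm_num

lemma chi'_nonpos (l q : ℝ) : chi' l q ≤ 0 := by
  unfold chi'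
  have h1 := tt_nonneg l q
  have h2 := deriv_smoothTransition_nonneg (pp l q)
  have h3 : 0 ≤ 4 / (3 * l ^ 2) := by positivity
  have : 0 ≤ 2 * tt l q * (deriv Real.smoothTransition (pp l q) * (4 / (3 * l ^ 2))) := by
    positivity
  linarith

lemma chi'_eq_zero {l q : ℝ} (hl : 0 < l) (h : l ^ 2 ≤ q) : chi' l q = 0 := by
  have h1 : 1 ≤ pp l q := by
    unfold pp
    have : 4 ≤ 4 * q / l ^ 2 := by
      rw [le_div_iff₀ (by positivity)]
      linarith
    linarith
  unfold chi'
  rw [deriv_eq_zero_of_one_lt h1]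
  ring

lemma chi_hasDerivAt (l q : ℝ) : HasDerivAt (chi l) (chi' l q) q := by
  have h1 : HasDerivAt (pp l) (4 / (3 * l ^ 2)) q := by
    unfold pp
    have : HasDerivAt (fun q : ℝ => (4 * q / l ^ 2 - 1) / 3) ((4 * 1 / l ^ 2) / 3) q :=
      ((((hasDerivAt_id q).const_mul 4).div_const (l ^ 2)).sub_const 1).div_const 3
    convert this using 1
    field_simp
  have h2 : HasDerivAt (tt l) (deriv Real.smoothTransition (pp l q) * (4 / (3 * l ^ 2))) q :=
    (smoothTransition_hasDerivAt (pp l q)).comp q h1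
  have h3 := (h2.pow 2).const_sub 1
  have e : chi' l q = -((2 : ℕ) * tt l q ^ (2 - 1) *
      (deriv Real.smoothTransition (pp l q) * (4 / (3 * l ^ 2)))) := by
    unfold chi'
    norm_num
  rw [e]
  exact h3

lemma chi_continuous (l : ℝ) : Continuous (chi l) := by
  unfold chi tt pp
  have := Real.smoothTransition.continuous
  fun_prop

lemma chi'_continuous (l : ℝ) : Continuous (chi' l) := by
  have h0 : Continuous (deriv Real.smoothTransition) :=
    (Real.smoothTransition.contDiff (n := 1)).continuous_deriv le_rfl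
  unfold chi' tt pp
  have := Real.smoothTransition.continuous
  fun_prop

/-- `|chi'(q)| √q ≤ (8/3) C T / l`. -/
lemma chi'_bound {C : ℝ} (hC : ∀ x, |deriv Real.smoothTransition x| ≤ C) {l q : ℝ} (hl : 0 < l) :
    -(8 / 3 * C / l * tt l q) ≤ chi' l q * Real.sqrt q := by
  by_cases h : l ^ 2 ≤ q
  · rw [chi'_eq_zero hl h, zero_mul]
    have h1 := tt_nonneg l q
    have h2 : 0 ≤ C := (abs_nonneg _).trans (hC 0)
    have : 0 ≤ 8 / 3 * C / l * tt l q := by positivity
    linarith
  · have hq : Real.sqrt q ≤ l := by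
      rw [Real.sqrt_le_left hl.le]
      exact (not_le.mp h).le
    have hq0 := Real.sqrt_nonneg q
    unfold chi'
    have h1 := tt_nonneg l q
    have h2 := deriv_smoothTransition_nonneg (pp l q)
    have h3 := (le_abs_self _).trans (hC (pp l q))
    have h4 : deriv Real.smoothTransition (pp l q) * Real.sqrt q ≤ C * l :=
      mul_le_mul h3 hq hq0 (h2.trans h3)
    have e : -(2 * tt l q * (deriv Real.smoothTransition (pp l q) * (4 / (3 * l ^ 2)))) *
        Real.sqrt q = -(8 / 3 / l ^ 2 * tt l q *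
          (deriv Real.smoothTransition (pp l q) * Real.sqrt q)) := by
      field_simp
      ring
    rw [e]
    have : 8 / 3 / l ^ 2 * tt l q * (deriv Real.smoothTransition (pp l q) * Real.sqrt q) ≤
        8 / 3 / l ^ 2 * tt l q * (C * l) := mul_le_mul_of_nonneg_left h4 (by positivity)
    have e2 : 8 / 3 / l ^ 2 * tt l q * (C * l) = 8 / 3 * C / l * tt l q := by
      field_simp
    linarith

/-- One summand of the vector field. -/
noncomputable def hh (l ε q u : ℝ) : ℝ := chi l q * (u / Real.sqrt (q + ε ^ 2))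

/-- Its derivative. -/
noncomputable def hh' (l ε q u : ℝ) : ℝ :=
  2 * chi' l q * (u ^ 2 / Real.sqrt (q + ε ^ 2)) +
    chi l q * (1 / Real.sqrt (q + ε ^ 2) - u ^ 2 / (Real.sqrt (q + ε ^ 2)) ^ 3)

lemma hh_hasDerivAt (l ε q u : ℝ) (hε : 0 < ε) (hq : 0 ≤ q) :
    HasDerivAt (fun t : ℝ => hh l ε (q + 2 * t * u + t ^ 2) (u + t)) (hh' l ε q u) 0 := by
  have hs : 0 < q + ε ^ 2 := by positivity
  have h1 : HasDerivAt (fun t : ℝ => q + 2 * t * u + t ^ 2) (2 * u) 0 := by
    have a1 : HasDerivAt (fun t : ℝ => 2 * t * u) (2 * 1 * u) 0 :=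
      ((hasDerivAt_id (0 : ℝ)).const_mul 2).mul_const u
    have a2 : HasDerivAt (fun t : ℝ => t ^ 2) ((2 : ℕ) * (0 : ℝ) ^ (2 - 1)) 0 := hasDerivAt_pow 2 0
    have a3 := (a1.const_add q).add a2
    refine a3.congr_deriv ?_
    norm_num
  have h2 : HasDerivAt (fun t : ℝ => chi l (q + 2 * t * u + t ^ 2)) (chi' l q * (2 * u)) 0 := by
    have h : HasDerivAt (chi l) (chi' l q) (q + 2 * 0 * u + 0 ^ 2) := by
      have := chi_hasDerivAt l q
      simpa using this
    exact HasDerivAt.comp (0 : ℝ) (h₂ := chi l) (h := fun t : ℝ => q + 2 * t * u + t ^ 2) h h1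
  have h3 : HasDerivAt (fun t : ℝ => Real.sqrt (q + 2 * t * u + t ^ 2 + ε ^ 2))
      (2 * u / (2 * Real.sqrt (q + ε ^ 2))) 0 := by
    have h := (h1.add_const (ε ^ 2)).sqrt (by simpa using hs.ne')
    simpa using h
  have h4 : HasDerivAt (fun t : ℝ => u + t) 1 0 := by
    simpa using (hasDerivAt_id (0 : ℝ)).const_add u
  have hne : Real.sqrt (q + 2 * 0 * u + 0 ^ 2 + ε ^ 2) ≠ 0 := by
    have : 0 < Real.sqrt (q + ε ^ 2) := Real.sqrt_pos.mpr hs
    simpa using this.ne'
  have h5 := h2.mul (h4.div h3 hne)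
  unfold hh hh'
  have hs' : Real.sqrt (q + ε ^ 2) ≠ 0 := (Real.sqrt_pos.mpr hs).ne'
  refine h5.congr_deriv ?_
  have z1 : q + 2 * 0 * u + 0 ^ 2 = q := by ring
  simp only [Pi.div_apply]
  rw [z1]
  field_simp
  ring

end Pool.Agent.Helper67.Conv
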