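import Pool.Agent.Helper67.Conv.Classical

set_option autoImplicit false
set_option linter.unusedSectionVars false
open MeasureTheory SchwartzMap
open scoped RealInnerProductSpace ContDiff

namespace Pool.Agent.Helper67.Conv

lemma bdd_all {C : ℝ} (hC : ∀ x, |deriv Real.smoothTransition x| ≤ C) {l : ℝ} (hl : 8 ≤ l)
    {K : ℕ} {R : Fin K → Space} (hsep : Sep l R) (M : ℕ) : BddBelow (energies (one K) R M) :=
  bddBelow_energy (by linarith) hsep (c := M * (-(1 / 2) - cc C l - K / l))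
    (Filter.Eventually.of_forall fun x => Theta_ge hC hl hsep x)

lemma upper {C : ℝ} (hC : ∀ x, |deriv Real.smoothTransition x| ≤ C) {M K : ℕ}
    {κ lam l w : ℝ} (hκ : 0 < κ) (hκ1 : κ ≤ 1) (hl : 8 ≤ l) (hlam : 4 * l ≤ lam)
    {P : Fin K → Space} (hP : ∀ j k, j ≠ k → 1 ≤ ‖P j - P k‖) (a : Fin M → Fin K)
    (ha : Function.Injective a) (hw : ∀ τ : Equiv.Perm (Fin M), Wc P (a ∘ τ) ≤ w) :
    groundEnergy (one K) (sc lam P) M ≤
      M * (-(1 / 2) + κ ^ 2 + 8 / l ^ 2) + w / lam + (4 * M ^ 2 + 2 * M * K) * l / lam ^ 2 := by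
  obtain ⟨ψ, h1, h2, h3⟩ := exists_trial hκ hκ1 (by linarith) hlam hP a ha hw
  refine le_trans ?_ h3
  have hsep : Sep l (sc lam P) := sc_sep (by linarith) (by linarith) hP
  exact csInf_le (bdd_all hC hl hsep M) ⟨ψ, h1, h2, rfl⟩

lemma nonempty {M K : ℕ} {κ lam l w : ℝ} (hκ : 0 < κ) (hκ1 : κ ≤ 1) (hl : 8 ≤ l)
    (hlam : 4 * l ≤ lam)
    {P : Fin K → Space} (hP : ∀ j k, j ≠ k → 1 ≤ ‖P j - P k‖) (a : Fin M → Fin K)
    (ha : Function.Injective a) (hw : ∀ τ : Equiv.Perm (Fin M), Wc P (a ∘ τ) ≤ w) :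
    (energies (one K) (sc lam P) M).Nonempty := by
  obtain ⟨ψ, h1, h2, h3⟩ := exists_trial hκ hκ1 (by linarith) hlam hP a ha hw
  exact ⟨_, ψ, h1, h2, rfl⟩

lemma ae_distinct (M : ℕ) : ∀ᵐ x : Config M, ∀ i j, i ≠ j → pos x i ≠ pos x j := by
  rw [ae_all_iff]
  intro i
  rw [ae_all_iff]
  intro j
  by_cases h : i = j
  · exact Filter.Eventually.of_forall fun x hh => absurd h hh
  · filter_upwards [ae_pos_ne i j h] with x hx
    exact fun _ => hx

lemma lower3 {C : ℝ} (hC : ∀ x, |deriv Real.smoothTransition x| ≤ C) {lam l κ : ℝ}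
    (hκ : 0 < κ) (hκ1 : κ ≤ 1)
    (hl : 60 ≤ l) (hlam : 120 * l ≤ lam) :
    -(3 / 2) + (-1.9252562) / lam - 3 * cc C l - 78 * l / lam ^ 2 ≤
      groundEnergy (one 10) (sc lam pt) 3 := by
  have hl0 : 0 < l := by linarith
  have hlam0 : 0 < lam := by linarith
  have hsep : Sep l (sc lam pt) := sc_sep hlam0 (by linarith) pt_sep
  obtain ⟨ψ, h1, h2, h3⟩ := exists_trial (l := l) (lam := lam) hκ hκ1 (by linarith)
    (by linarith) pt_sep a3 a3_inj w3_le
  refine groundEnergy_ge hl0 hsep ?_ ⟨ψ, h1, h2⟩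
  filter_upwards [ae_distinct 3] with x hx
  have key := Theta_main (M := 3) (K := 10) (lam := lam) (l := l) hC (w := -1.9252562)
    (by linarith) (by linarith)
    pt_sep le_w3 (by norm_num) (by
      push_cast
      rw [div_le_iff₀ hl0]
      linarith) (by
      push_cast
      linarith) x hx
  refine le_trans (le_of_eq ?_) key
  push_cast
  ring

lemma final_arith {C t κ l lam E2 E3 E4 : ℝ} (ht1 : 10 ^ 6 ≤ t) (htC : C ^ 2 ≤ t)
    (hl : l = t ^ 3) (hlam : lam = t ^ 4) (hκ : κ = 1 / t ^ 3)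
    (u2 : E2 ≤ 2 * (-(1 / 2) + κ ^ 2 + 8 / l ^ 2) + (-1.42692) / lam + 56 * l / lam ^ 2)
    (u3 : E3 ≤ 3 * (-(1 / 2) + κ ^ 2 + 8 / l ^ 2) + 0 / lam + 96 * l / lam ^ 2)
    (u4 : E4 ≤ 4 * (-(1 / 2) + κ ^ 2 + 8 / l ^ 2) + (-2.426078) / lam + 144 * l / lam ^ 2)
    (l2 : 2 * (-(1 / 2) - cc C l - 10 / l) ≤ E2)
    (l3 : -(3 / 2) + (-1.9252562) / lam - 3 * cc C l - 78 * l / lam ^ 2 ≤ E3) :
    0 < E2 - E3 ∧ E2 - E3 < E3 - E4 := by
  have ht0 : 0 < t := by linarith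
  set y : ℝ := 1 / t with hy
  have hy0 : 0 < y := by positivity
  have hy1 : y ≤ 1 / 10 ^ 6 := one_div_le_one_div_of_le (by norm_num) ht1
  have hty : t * y = 1 := by rw [hy]; field_simp
  have e1 : κ ^ 2 = y ^ 6 := by rw [hκ, hy]; field_simp
  have e2 : 8 / l ^ 2 = 8 * y ^ 6 := by rw [hl, hy]; field_simp
  have e3 : ∀ w : ℝ, w / lam = w * y ^ 4 := by
    intro w
    rw [hlam, hy]
    field_simp
  have e4 : ∀ w : ℝ, w * l / lam ^ 2 = w * y ^ 5 := by
    intro w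
    rw [hlam, hl, hy]
    field_simp
  have e5 : cc C l ≤ 64 / 9 * y ^ 5 := by
    unfold cc
    rw [hl]
    have : 64 / 9 * C ^ 2 / (t ^ 3) ^ 2 = 64 / 9 * C ^ 2 * y ^ 6 := by
      rw [hy]
      field_simp
    rw [this]
    have h1 : C ^ 2 * y ≤ 1 := by
      calc C ^ 2 * y ≤ t * y := mul_le_mul_of_nonneg_right htC hy0.le
        _ = 1 := hty
    have h2 : 0 ≤ y ^ 5 := by positivity
    nlinarith
  have e6 : ∀ w : ℝ, w / l = w * y ^ 3 := by
    intro w
    rw [hl, hy]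
    field_simp
  rw [e1, e2, e3, e4] at u2 u3 u4
  rw [e3, e4] at l3
  rw [e6] at l2
  have f5 : y ^ 5 = y ^ 4 * y := by ring
  have f6 : y ^ 6 ≤ y ^ 5 := by
    have : y ^ 6 = y ^ 5 * y := by ring
    rw [this]
    have h0 : 0 ≤ y ^ 5 := by positivity
    nlinarith
  have f4 : 0 < y ^ 4 := by positivity
  have f7 : y ^ 5 ≤ y ^ 4 * (1 / 10 ^ 6) := by
    rw [f5]
    exact mul_le_mul_of_nonneg_left hy1 f4.le
  have f8 : y ^ 3 ≤ 1 / 10 ^ 6 := by
    have : y ^ 3 ≤ y ^ 1 := pow_le_pow_of_le_one hy0.le (by linarith) (by norm_num)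
    rw [pow_one] at this
    linarith
  have f9 : y ^ 4 ≤ 1 / 10 ^ 6 := by
    have : y ^ 4 ≤ y ^ 1 := pow_le_pow_of_le_one hy0.le (by linarith) (by norm_num)
    rw [pow_one] at this
    linarith
  clear_value y
  constructor
  · linarith
  · linarith

/-- The main result. -/
theorem main : ∃ R : Fin 10 → Space, Function.Injective R ∧
    (∀ M, 2 ≤ M → M ≤ 4 → (energies (one 10) R M).Nonempty ∧ BddBelow (energies (one 10) R M)) ∧
    0 < ionization (one 10) R 3 ∧ ionization (one 10) R 3 < ionization (one 10) R 4 := by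
  obtain ⟨C, hC0, hC⟩ := exists_bound_deriv
  -- parameters
  obtain ⟨t, ht1, htC⟩ : ∃ t : ℝ, 10 ^ 6 ≤ t ∧ C ^ 2 ≤ t := by
    refine ⟨10 ^ 6 + C ^ 2, ?_, ?_⟩
    · nlinarith [sq_nonneg C]
    · linarith
  have ht0 : 0 < t := by linarith
  obtain ⟨l, hl⟩ : ∃ l : ℝ, l = t ^ 3 := ⟨_, rfl⟩
  obtain ⟨lam, hlam⟩ : ∃ lam : ℝ, lam = t ^ 4 := ⟨_, rfl⟩
  obtain ⟨κ, hκ⟩ : ∃ κ : ℝ, κ = 1 / t ^ 3 := ⟨_, rfl⟩
  have hκ0 : 0 < κ := by rw [hκ]; positivity
  have hκ1 : κ ≤ 1 := by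
    rw [hκ, div_le_one (by positivity)]
    exact one_le_pow₀ (by linarith)
  have hl1 : 60 ≤ l := by
    have : t ≤ t ^ 3 := by
      have h1 : 1 ≤ t ^ 2 := one_le_pow₀ (by linarith)
      nlinarith
    linarith
  have hl0 : 0 < l := by linarith
  have hlaml : lam = t * l := by rw [hlam, hl]; ring
  have h120 : 120 * l ≤ lam := by
    rw [hlaml]
    nlinarith
  have hlam0 : 0 < lam := by linarith
  have h4 : 4 * l ≤ lam := by linarith
  have h8 : 8 ≤ l := by linarith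
  have hsep : Sep l (sc lam pt) := sc_sep hlam0 (by linarith) pt_sep
  have u2 := upper (lam := lam) (l := l) hC hκ0 hκ1 h8 h4 pt_sep a2 a2_inj w2_le
  have u3 := upper (lam := lam) (l := l) hC hκ0 hκ1 h8 h4 pt_sep a3 a3_inj w3_le
  have u4 := upper (lam := lam) (l := l) hC hκ0 hκ1 h8 h4 pt_sep a4 a4_inj w4_le
  have l3 := lower3 hC hκ0 hκ1 hl1 h120
  have n2 := nonempty (lam := lam) (l := l) hκ0 hκ1 h8 h4 pt_sep a2 a2_inj w2_le
  have n3 := nonempty (lam := lam) (l := l) hκ0 hκ1 h8 h4 pt_sep a3 a3_inj w3_le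
  have n4 := nonempty (lam := lam) (l := l) hκ0 hκ1 h8 h4 pt_sep a4 a4_inj w4_le
  -- crude lower bound for two electrons
  have l2 : (2 : ℕ) * (-(1 / 2) - cc C l - (10 : ℕ) / l) ≤
      groundEnergy (one 10) (sc lam pt) 2 := by
    obtain ⟨_, ψ, h1, h2, _⟩ := n2
    exact groundEnergy_ge hl0 hsep
      (Filter.Eventually.of_forall fun x => Theta_ge hC h8 hsep x) ⟨ψ, h1, h2⟩
  have key := final_arith (E2 := groundEnergy (one 10) (sc lam pt) 2)
    (E3 := groundEnergy (one 10) (sc lam pt) 3) (E4 := groundEnergy (one 10) (sc lam pt) 4)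
    ht1 htC hl hlam hκ
    (by
      refine u2.trans (le_of_eq ?_)
      push_cast
      ring)
    (by
      refine u3.trans (le_of_eq ?_)
      push_cast
      ring)
    (by
      refine u4.trans (le_of_eq ?_)
      push_cast
      ring)
    (by
      refine le_trans (le_of_eq ?_) l2
      push_cast
      ring)
    l3
  refine ⟨sc lam pt, ?_, ?_, key.1, key.2⟩
  · intro j k hjk
    by_contra hne
    have h1 := pt_sep j k hne
    have h2 := norm_sc hlam0 pt j k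
    rw [hjk, sub_self, norm_zero] at h2
    nlinarith
  · intro M hM2 hM4
    refine ⟨?_, bdd_all hC h8 hsep M⟩
    interval_cases M
    · exact n2
    · exact n3
    · exact n4

end Pool.Agent.Helper67.Conv
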