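import Pool.Agent.Helper67.Conv.Pointwise

set_option autoImplicit false
set_option linter.unusedSectionVars false
open MeasureTheory SchwartzMap
open scoped RealInnerProductSpace

namespace Pool.Agent.Helper67.Conv

variable {M K : ℕ}

/-- Scaled nuclei. -/
noncomputable def sc (lam : ℝ) (P : Fin K → Space) : Fin K → Space := fun k => lam • P k

/-- The classical interaction energy of the assignment `a`. -/
noncomputable def Wc (P : Fin K → Space) (a : Fin M → Fin K) : ℝ :=
  (∑ i : Fin M, ∑ j : Fin M, if i < j then 1 / ‖P (a i) - P (a j)‖ else 0)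
    - ∑ i : Fin M, ∑ k ∈ Finset.univ.erase (a i), 1 / ‖P (a i) - P k‖

lemma norm_sc {lam : ℝ} (hlam : 0 < lam) (P : Fin K → Space) (j k : Fin K) :
    ‖sc lam P j - sc lam P k‖ = lam * ‖P j - P k‖ := by
  unfold sc
  rw [← smul_sub, norm_smul, Real.norm_of_nonneg hlam.le]

lemma sc_sep {lam l : ℝ} (hlam : 0 < lam) (hl : 2 * l ≤ lam) {P : Fin K → Space}
    (hP : ∀ j k, j ≠ k → 1 ≤ ‖P j - P k‖) : Sep l (sc lam P) := by
  intro j k hjk
  rw [norm_sc hlam]
  nlinarith [hP j k hjk]

lemma inv_upper {lam l D r : ℝ} (hl : 0 < l) (hlam : 2 * l ≤ lam) (hD : 1 ≤ D)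
    (hr : lam * D - l ≤ r) : 1 / r ≤ 1 / lam * (1 / D + 2 * (l / lam)) := by
  have hlam0 : 0 < lam := by linarith
  have hD0 : 0 < D := by linarith
  have h1 : 0 < lam * D - l := by nlinarith
  have hr0 : 0 < r := by linarith
  refine (one_div_le_one_div_of_le h1 hr).trans ?_
  rw [div_le_iff₀ h1]
  have e : 1 / lam * (1 / D + 2 * (l / lam)) * (lam * D - l) =
      1 + (l / (lam * lam * D)) * (2 * D * (lam * D - l) - lam) := by
    field_simp
    ring
  rw [e]
  have h2 : 0 ≤ 2 * D * (lam * D - l) - lam := by nlinarith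
  have h3 : 0 ≤ l / (lam * lam * D) := by positivity
  nlinarith [mul_nonneg h3 h2]

lemma inv_lower {lam l D r : ℝ} (hl : 0 < l) (hlam : 2 * l ≤ lam) (hD : 1 ≤ D) (hr0 : 0 < r)
    (hr : r ≤ lam * D + 2 * l) : 1 / lam * (1 / D - 2 * (l / lam)) ≤ 1 / r := by
  have hlam0 : 0 < lam := by linarith
  have hD0 : 0 < D := by linarith
  have h1 : 0 < lam * D + 2 * l := by nlinarith
  refine le_trans ?_ (one_div_le_one_div_of_le hr0 hr)
  rw [le_div_iff₀ h1]
  have e : 1 / lam * (1 / D - 2 * (l / lam)) * (lam * D + 2 * l) =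
      1 - (2 * l / (lam * lam * D)) * (D * (lam * D + 2 * l) - lam) := by
    field_simp
    ring
  rw [e]
  have h2 : 0 ≤ D * (lam * D + 2 * l) - lam := by nlinarith
  have h3 : 0 ≤ 2 * l / (lam * lam * D) := by positivity
  nlinarith [mul_nonneg h3 h2]

lemma near_iff {l : ℝ} (hl : 0 < l) (x : Config M) (i : Fin M) (Q : Space) :
    qq x i Q < l ^ 2 ↔ ‖pos x i - Q‖ < l := by
  rw [norm_pos_sub, Real.sqrt_lt' hl]

/-- Near one nucleus, the attractions of the other nuclei. -/
lemma attr_le {lam l : ℝ} (hl : 0 < l) (hlam : 2 * l ≤ lam) {P : Fin K → Space}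
    (hP : ∀ j k, j ≠ k → 1 ≤ ‖P j - P k‖) (x : Config M) (i : Fin M) (j : Fin K)
    (hj : ‖pos x i - sc lam P j‖ ≤ l) (k : Fin K) (hk : k ≠ j) :
    1 / ‖pos x i - sc lam P k‖ ≤ 1 / lam * (1 / ‖P j - P k‖ + 2 * (l / lam)) := by
  have hlam0 : 0 < lam := by linarith
  refine inv_upper hl hlam (hP j k hk.symm) ?_
  rw [← norm_sc hlam0]
  have : sc lam P j - sc lam P k = -(pos x i - sc lam P j) + (pos x i - sc lam P k) := by abel
  rw [this]
  have h := norm_add_le (-(pos x i - sc lam P j)) (pos x i - sc lam P k)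
  rw [norm_neg] at h
  linarith

lemma rep_ge {lam l : ℝ} (hl : 0 < l) (hlam : 2 * l ≤ lam) {P : Fin K → Space}
    (hP : ∀ j k, j ≠ k → 1 ≤ ‖P j - P k‖) (x : Config M) (i i' : Fin M) (j j' : Fin K)
    (hj : ‖pos x i - sc lam P j‖ ≤ l) (hj' : ‖pos x i' - sc lam P j'‖ ≤ l) (hne : j ≠ j')
    (hpos : pos x i ≠ pos x i') :
    1 / lam * (1 / ‖P j - P j'‖ - 2 * (l / lam)) ≤ 1 / ‖pos x i - pos x i'‖ := by
  have hlam0 : 0 < lam := by linarith
  refine inv_lower hl hlam (hP j j' hne) (norm_pos_iff.mpr (sub_ne_zero.mpr hpos)) ?_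
  rw [← norm_sc hlam0]
  have : pos x i - pos x i' = (pos x i - sc lam P j) + (sc lam P j - sc lam P j') +
      -(pos x i' - sc lam P j') := by abel
  rw [this]
  have h := norm_add₃_le (a := pos x i - sc lam P j) (b := sc lam P j - sc lam P j')
    (c := -(pos x i' - sc lam P j'))
  rw [norm_neg] at h
  linarith

lemma card_erase_le' (j : Fin K) : ((Finset.univ.erase j).card : ℝ) ≤ K := by
  have := Finset.card_erase_le (s := (Finset.univ : Finset (Fin K))) (a := j)
  rw [Finset.card_univ, Fintype.card_fin] at this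
  exact_mod_cast this

/-- The main pointwise lower bound. -/
lemma Theta_main {C : ℝ} (hC : ∀ x, |deriv Real.smoothTransition x| ≤ C) {lam l w : ℝ}
    (hl : 8 ≤ l) (hlam : 2 * l ≤ lam) {P : Fin K → Space}
    (hP : ∀ j k, j ≠ k → 1 ≤ ‖P j - P k‖)
    (hw : ∀ a : Fin M → Fin K, Function.Injective a → w ≤ Wc P a) (hw0 : w ≤ 0)
    (h1 : (M : ℝ) * K / l ≤ 1 / 2) (h2 : 4 * (M : ℝ) * K * l ≤ lam)
    (x : Config M) (hx : ∀ i j, i ≠ j → pos x i ≠ pos x j) :
    -(M / 2) + w / lam - M * cc C l - 2 * (M ^ 2 + M * K) * l / lam ^ 2 ≤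
      Theta l (sc lam P) x := by
  have hl0 : 0 < l := by linarith
  have hlam0 : 0 < lam := by linarith
  have hsep := sc_sep hlam0 hlam hP
  have hcc := cc_nonneg C l
  have hM0 : (0 : ℝ) ≤ M := Nat.cast_nonneg M
  have hK0 : (0 : ℝ) ≤ K := Nat.cast_nonneg K
  have herr : 0 ≤ 2 * ((M : ℝ) ^ 2 + M * K) * l / lam ^ 2 := by positivity
  have hwl : w / lam ≤ 0 := div_nonpos_of_nonpos_of_nonneg hw0 hlam0.le
  by_cases hfar : ∃ i : Fin M, ∀ j, l ^ 2 ≤ qq x i (sc lam P j)
  · -- some electron is far from all nuclei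
    obtain ⟨i, hi⟩ := hfar
    rw [Theta_eq, ← Finset.add_sum_erase _ _ (Finset.mem_univ i)]
    have a1 := tau_far hl0 x i hi
    have a2 : ∑ i' ∈ Finset.univ.erase i, (-(1 / 2) - cc C l - K / l) ≤
        ∑ i' ∈ Finset.univ.erase i, tau l (sc lam P) x i' :=
      Finset.sum_le_sum fun i' _ => tau_ge hC hl hsep x i'
    rw [Finset.sum_const, nsmul_eq_mul] at a2
    have a3 : ((Finset.univ.erase i).card : ℝ) = M - 1 := by
      rw [Finset.card_erase_of_mem (Finset.mem_univ i), Finset.card_univ, Fintype.card_fin]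
      have : 1 ≤ M := by
        have := i.2
        omega
      push_cast [this]
      ring
    rw [a3] at a2
    have a4 := repul_nonneg x
    have a5 : (M : ℝ) * (K / l) ≤ 1 / 2 := by
      have : (M : ℝ) * (K / l) = M * K / l := by ring
      rw [this]
      exact h1
    nlinarith
  · push Not at hfar
    choose a ha using hfar
    have ha' : ∀ i, ‖pos x i - sc lam P (a i)‖ ≤ l := fun i =>
      ((near_iff hl0 x i _).mp (ha i)).le
    have htau : ∀ i, -(1 / 2) - cc C l - ∑ k ∈ Finset.univ.erase (a i),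
        1 / ‖pos x i - sc lam P k‖ ≤ tau l (sc lam P) x i :=
      fun i => tau_near hC hl hsep x i (a i) (ha i)
    have hatt : ∀ i, ∑ k ∈ Finset.univ.erase (a i), 1 / ‖pos x i - sc lam P k‖ ≤
        ∑ k ∈ Finset.univ.erase (a i), 1 / lam * (1 / ‖P (a i) - P k‖ + 2 * (l / lam)) :=
      fun i => Finset.sum_le_sum fun k hk =>
        attr_le hl0 hlam hP x i (a i) (ha' i) k (Finset.ne_of_mem_erase hk)
    by_cases hinj : Function.Injective a
    · -- injective assignment
      have hW := hw a hinj
      rw [Theta_eq]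
      have b1 : ∑ i, (-(1 / 2) - cc C l - (1 / lam * (∑ k ∈ Finset.univ.erase (a i),
          1 / ‖P (a i) - P k‖) + K * (2 * l / lam ^ 2))) ≤ ∑ i, tau l (sc lam P) x i := by
        refine Finset.sum_le_sum fun i _ => ?_
        refine le_trans ?_ (htau i)
        have c1 := hatt i
        have c2 : ∑ k ∈ Finset.univ.erase (a i),
            1 / lam * (1 / ‖P (a i) - P k‖ + 2 * (l / lam)) =
            1 / lam * (∑ k ∈ Finset.univ.erase (a i), 1 / ‖P (a i) - P k‖) +
            ((Finset.univ.erase (a i)).card : ℝ) * (2 * l / lam ^ 2) := by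
          rw [← Finset.mul_sum, Finset.sum_add_distrib, Finset.sum_const, nsmul_eq_mul]
          field_simp
        rw [c2] at c1
        have c3 := card_erase_le' (a i)
        have c4 : 0 ≤ 2 * l / lam ^ 2 := by positivity
        have c5 := mul_le_mul_of_nonneg_right c3 c4
        linarith
      have b2 : (∑ i : Fin M, ∑ j : Fin M, ((1 / lam * if i < j then
          1 / ‖P (a i) - P (a j)‖ else 0) - 2 * l / lam ^ 2)) ≤ repul x := by
        unfold repul
        refine Finset.sum_le_sum fun i _ => Finset.sum_le_sum fun j _ => ?_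
        split_ifs with hij
        · have c1 := rep_ge hl0 hlam hP x i j (a i) (a j) (ha' i) (ha' j)
            (fun h => hij.ne (hinj h)) (hx i j hij.ne)
          refine le_trans (le_of_eq ?_) c1
          field_simp
        · have : 0 ≤ 2 * l / lam ^ 2 := by positivity
          rw [mul_zero]
          linarith
      have b3 : (∑ i : Fin M, ∑ j : Fin M, ((1 / lam * if i < j then
          1 / ‖P (a i) - P (a j)‖ else 0) - 2 * l / lam ^ 2)) =
          1 / lam * (∑ i : Fin M, ∑ j : Fin M, if i < j then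
          1 / ‖P (a i) - P (a j)‖ else 0) - M ^ 2 * (2 * l / lam ^ 2) := by
        simp only [Finset.sum_sub_distrib, Finset.sum_const, Finset.card_univ, Fintype.card_fin,
          nsmul_eq_mul, ← Finset.mul_sum]
        ring
      have b4 : ∑ i : Fin M, (-(1 / 2) - cc C l - (1 / lam * (∑ k ∈ Finset.univ.erase (a i),
          1 / ‖P (a i) - P k‖) + K * (2 * l / lam ^ 2))) =
          -(M / 2) - M * cc C l - 1 / lam * (∑ i : Fin M, ∑ k ∈ Finset.univ.erase (a i),
          1 / ‖P (a i) - P k‖) - M * K * (2 * l / lam ^ 2) := by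
        simp only [Finset.sum_sub_distrib, Finset.sum_add_distrib, Finset.sum_const,
          Finset.card_univ, Fintype.card_fin, nsmul_eq_mul, ← Finset.mul_sum]
        ring
      rw [b4] at b1
      rw [b3] at b2
      have b5 : w / lam ≤ 1 / lam * Wc P a := by
        rw [div_eq_mul_one_div, mul_comm]
        exact mul_le_mul_of_nonneg_left hW (by positivity)
      unfold Wc at b5
      have b6 : 2 * ((M : ℝ) ^ 2 + M * K) * l / lam ^ 2 =
        M ^ 2 * (2 * l / lam ^ 2) + M * K * (2 * l / lam ^ 2) := by ring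
      rw [b6]
      rw [mul_sub] at b5
      linarith
    · -- two electrons in the same ball
      rw [Function.not_injective_iff] at hinj
      obtain ⟨i₀, j₀, hab, hne⟩ := hinj
      wlog hij : i₀ < j₀ generalizing i₀ j₀ with H
      · exact H j₀ i₀ hab.symm hne.symm (lt_of_le_of_ne (not_lt.mp hij) hne.symm)
      rw [Theta_eq]
      have b1 : ∑ i : Fin M, (-(1 / 2) - cc C l - K * (2 / lam)) ≤
          ∑ i, tau l (sc lam P) x i := by
        refine Finset.sum_le_sum fun i _ => ?_
        refine le_trans ?_ (htau i)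
        have c1 := hatt i
        have c2 : ∑ k ∈ Finset.univ.erase (a i),
            1 / lam * (1 / ‖P (a i) - P k‖ + 2 * (l / lam)) ≤
            ∑ k ∈ Finset.univ.erase (a i), 2 / lam := by
          refine Finset.sum_le_sum fun k hk => ?_
          have d1 := hP (a i) k (Finset.ne_of_mem_erase hk).symm
          have d2 : 1 / ‖P (a i) - P k‖ ≤ 1 := by
            rw [div_le_one (by linarith)]
            exact d1
          have d3 : 2 * (l / lam) ≤ 1 := by
            rw [← mul_div_assoc, div_le_one hlam0]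
            exact hlam
          have d4 : 2 / lam = 1 / lam * 2 := by ring
          rw [d4]
          exact mul_le_mul_of_nonneg_left (by linarith) (by positivity)
        rw [Finset.sum_const, nsmul_eq_mul] at c2
        have c3 := card_erase_le' (a i)
        have c4 : 0 ≤ 2 / lam := by positivity
        have c5 := mul_le_mul_of_nonneg_right c3 c4
        linarith
      rw [Finset.sum_const, nsmul_eq_mul, Finset.card_univ, Fintype.card_fin] at b1
      have b2 : 1 / (2 * l) ≤ repul x := by
        refine le_trans ?_ (repul_ge x i₀ j₀ hij)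
        refine one_div_le_one_div_of_le (norm_pos_iff.mpr (sub_ne_zero.mpr (hx i₀ j₀ hne))) ?_
        have : pos x i₀ - pos x j₀ = (pos x i₀ - sc lam P (a i₀)) +
            -(pos x j₀ - sc lam P (a j₀)) := by
          rw [hab]
          abel
        rw [this]
        have h := norm_add_le (pos x i₀ - sc lam P (a i₀)) (-(pos x j₀ - sc lam P (a j₀)))
        rw [norm_neg] at h
        have := ha' i₀
        have := ha' j₀
        linarith
      have b3 : (M : ℝ) * (K * (2 / lam)) ≤ 1 / (2 * l) := by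
        rw [le_div_iff₀ (by positivity)]
        have : (M : ℝ) * (K * (2 / lam)) * (2 * l) = (4 * M * K * l) / lam := by ring
        rw [this, div_le_one hlam0]
        exact h2
      nlinarith

end Pool.Agent.Helper67.Conv
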