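import Pool.Agent.Helper67.Conv.Defs
import Pool.Agent.Helper67.Coulomb

set_option autoImplicit false
set_option linter.unusedSectionVars false
open MeasureTheory SchwartzMap
open scoped RealInnerProductSpace

namespace Pool.Agent.Helper67.Conv

variable {E : Type*} [NormedAddCommGroup E] [InnerProductSpace ℝ E] [FiniteDimensional ℝ E]
  [MeasurableSpace E] [BorelSpace E]

/-- Directional derivative of a Schwartz function, as a function. -/
noncomputable def dv (f : 𝓢(E, ℂ)) (v : E) (x : E) : ℂ := fderiv ℝ (fun y => f y) x v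

lemma dv_eq (f : 𝓢(E, ℂ)) (v : E) (x : E) :
    dv f v x = (LineDeriv.lineDerivOp v f : 𝓢(E, ℂ)) x := by
  rw [SchwartzMap.lineDerivOp_apply_eq_fderiv]
  rfl

lemma dv_continuous (f : 𝓢(E, ℂ)) (v : E) : Continuous (dv f v) := by
  have : dv f v = fun x => (LineDeriv.lineDerivOp v f : 𝓢(E, ℂ)) x := by
    funext x
    exact dv_eq f v x
  rw [this]
  exact SchwartzMap.continuous _

lemma normSq_integrable (f : 𝓢(E, ℂ)) : Integrable (fun x => ‖f x‖ ^ 2) := by
  have := weight_integrable f (g := fun _ => 1) (A := 1) (by fun_prop) (by intro x; simp)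
  simpa using this

lemma dv_normSq_integrable (f : 𝓢(E, ℂ)) (v : E) : Integrable (fun x => ‖dv f v x‖ ^ 2) := by
  simp_rw [dv_eq]
  exact normSq_integrable _

lemma bdd_mul_normSq_integrable (f : 𝓢(E, ℂ)) {g : E → ℝ} (hg : AEStronglyMeasurable g volume)
    {A : ℝ} (hA : ∀ x, |g x| ≤ A) : Integrable (fun x => g x * ‖f x‖ ^ 2) := by
  refine Integrable.mono' ((normSq_integrable f).const_mul A) ?_ ?_
  · exact hg.mul (by fun_prop)
  · refine Filter.Eventually.of_forall fun x => ?_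
    rw [norm_mul, Real.norm_eq_abs, Real.norm_of_nonneg (by positivity : 0 ≤ ‖f x‖ ^ 2)]
    exact mul_le_mul_of_nonneg_right (hA x) (by positivity)

/-- The basic lower bound for the kinetic energy in one direction. -/
lemma kin_ineq (f : 𝓢(E, ℂ)) (v : E) {G G' : E → ℝ} {A A' : ℝ}
    (hGm : AEStronglyMeasurable G volume) (hG'm : AEStronglyMeasurable G' volume)
    (hA : ∀ x, |G x| ≤ A) (hA' : ∀ x, |G' x| ≤ A')
    (hd : ∀ x, HasLineDerivAt ℝ G (G' x) x v) :
    ∫ x, (G' x - G x ^ 2) * ‖f x‖ ^ 2 ≤ ∫ x, ‖dv f v x‖ ^ 2 := by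
  have hA0 : 0 ≤ A := (abs_nonneg _).trans (hA 0)
  -- the line derivative of the density
  have hd2 : ∀ x, HasLineDerivAt ℝ (fun y => ‖f y‖ ^ 2) (2 * ⟪f x, dv f v x⟫) x v := by
    intro x
    have h1 : HasFDerivAt (fun y => f y) (fderiv ℝ (fun y => f y) x) x :=
      (f.differentiableAt).hasFDerivAt
    have h2 := (h1.norm_sq).hasLineDerivAt v
    convert h2 using 1
    simp [dv]
    ring
  have i1 : Integrable (fun x => ‖f x‖ ^ 2 * G' x) := by
    have := bdd_mul_normSq_integrable f hG'm hA'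
    refine this.congr (Filter.Eventually.of_forall fun x => by simp only; ring)
  have i2 : Integrable (fun x => ‖f x‖ ^ 2 * G x) := by
    have := bdd_mul_normSq_integrable f hGm hA
    refine this.congr (Filter.Eventually.of_forall fun x => by simp only; ring)
  have i0 : Integrable (fun x => G x ^ 2 * ‖f x‖ ^ 2) := by
    refine bdd_mul_normSq_integrable f (hGm.pow 2) (A := A ^ 2) ?_
    intro x
    rw [abs_pow]
    exact pow_le_pow_left₀ (abs_nonneg _) (hA x) 2
  have i3 : Integrable (fun x => 2 * ⟪f x, dv f v x⟫ * G x) := by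
    refine Integrable.mono' (((normSq_integrable f).add (dv_normSq_integrable f v)).const_mul A)
      ?_ ?_
    · have h1 : Continuous (fun x => 2 * ⟪f x, dv f v x⟫) := by
        have := dv_continuous f v
        fun_prop
      exact h1.aestronglyMeasurable.mul hGm
    · refine Filter.Eventually.of_forall fun x => ?_
      rw [norm_mul, Real.norm_eq_abs, Real.norm_eq_abs]
      have h2 : |2 * ⟪f x, dv f v x⟫| ≤ ‖f x‖ ^ 2 + ‖dv f v x‖ ^ 2 := by
        rw [abs_mul, abs_two]
        have := abs_real_inner_le_norm (f x) (dv f v x)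
        nlinarith [sq_nonneg (‖f x‖ - ‖dv f v x‖)]
      simp only [Pi.add_apply]
      calc |2 * ⟪f x, dv f v x⟫| * |G x| ≤ (‖f x‖ ^ 2 + ‖dv f v x‖ ^ 2) * A :=
            mul_le_mul h2 (hA x) (abs_nonneg _) (by positivity)
        _ = _ := by ring
  have hparts : ∫ x, ‖f x‖ ^ 2 * G' x = - ∫ x, 2 * ⟪f x, dv f v x⟫ * G x := by
    have := integral_bilinear_hasLineDerivAt_right_eq_neg_left_of_integrable
      (μ := (volume : Measure E)) (B := ContinuousLinearMap.mul ℝ ℝ)
      (f := fun y => ‖f y‖ ^ 2) (f' := fun x => 2 * ⟪f x, dv f v x⟫) (g := G) (g' := G') (v := v)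
      (by simpa using i3) (by simpa using i1) (by simpa using i2)
      (fun x _ => hd2 x) (fun x _ => hd x)
    simpa using this
  have hpt : ∀ x, -(2 * ⟪f x, dv f v x⟫ * G x) - G x ^ 2 * ‖f x‖ ^ 2 ≤ ‖dv f v x‖ ^ 2 := by
    intro x
    have h1 : 0 ≤ ‖dv f v x + (G x) • f x‖ ^ 2 := by positivity
    rw [norm_add_sq_real, norm_smul, real_inner_smul_right, real_inner_comm, mul_pow,
      Real.norm_eq_abs, sq_abs] at h1
    linarith
  calc ∫ x, (G' x - G x ^ 2) * ‖f x‖ ^ 2
      = ∫ x, (‖f x‖ ^ 2 * G' x - G x ^ 2 * ‖f x‖ ^ 2) := by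
        congr 1
        funext x
        ring
    _ = (∫ x, ‖f x‖ ^ 2 * G' x) - ∫ x, G x ^ 2 * ‖f x‖ ^ 2 := integral_sub i1 i0
    _ = (∫ x, -(2 * ⟪f x, dv f v x⟫ * G x)) - ∫ x, G x ^ 2 * ‖f x‖ ^ 2 := by
        rw [hparts, integral_neg]
    _ = ∫ x, (-(2 * ⟪f x, dv f v x⟫ * G x) - G x ^ 2 * ‖f x‖ ^ 2) :=
        (integral_sub i3.neg i0).symm
    _ ≤ ∫ x, ‖dv f v x‖ ^ 2 :=
        integral_mono (i3.neg.sub i0) (dv_normSq_integrable f v) hpt

end Pool.Agent.Helper67.Conv
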