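import Pool.Agent.Helper67.Conv.Null

set_option autoImplicit false
set_option linter.unusedSectionVars false
open MeasureTheory SchwartzMap
open scoped RealInnerProductSpace

namespace Pool.Agent.Helper67.Conv

variable {M K : ℕ}

lemma bb_bound {C : ℝ} (hC : ∀ x, |deriv Real.smoothTransition x| ≤ C) {l : ℝ} (hl : 0 < l)
    (R : Fin K → Space) (i : Fin M) (x : Config M) :
    |bb l R i x| ≤ K * (1 + 2 * (8 / 3 * C / l)) := by
  have hC0 : 0 ≤ C := (abs_nonneg _).trans (hC 0)
  unfold bb
  refine (Finset.abs_sum_le_sum_abs _ _).trans ?_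
  have h : ∀ k ∈ (Finset.univ : Finset (Fin K)), |chi l (qq x i (R k)) ^ 2 -
      2 * (chi' l (qq x i (R k)) * Real.sqrt (qq x i (R k)))| ≤ 1 + 2 * (8 / 3 * C / l) := by
    intro k _
    have h1 := chi_nonneg l (qq x i (R k))
    have h2 := chi_le_one l (qq x i (R k))
    have h3 := chi'_bound hC (q := qq x i (R k)) hl
    have h4 := tt_le_one l (qq x i (R k))
    have h5 : chi' l (qq x i (R k)) * Real.sqrt (qq x i (R k)) ≤ 0 :=
      mul_nonpos_of_nonpos_of_nonneg (chi'_nonpos _ _) (Real.sqrt_nonneg _)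
    have h6 : 8 / 3 * C / l * tt l (qq x i (R k)) ≤ 8 / 3 * C / l := by
      have : 0 ≤ 8 / 3 * C / l := by positivity
      nlinarith
    rw [abs_of_nonneg (by nlinarith)]
    nlinarith
  refine (Finset.sum_le_sum h).trans ?_
  rw [Finset.sum_const, Finset.card_univ, Fintype.card_fin, nsmul_eq_mul]

lemma bb_continuous (l : ℝ) (R : Fin K → Space) (i : Fin M) :
    Continuous (bb (M := M) l R i) := by
  unfold bb
  refine continuous_finsetSum _ fun k _ => ?_
  have h1 := qq_continuous i (R k)
  have h2 := chi_continuous l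
  have h3 := chi'_continuous l
  exact ((h2.comp h1).pow 2).sub
    (((h3.comp h1).mul (Real.continuous_sqrt.comp h1)).const_mul 2)

/-- regularised one-body potential -/
noncomputable def aa (l ε : ℝ) (R : Fin K → Space) (i : Fin M) (x : Config M) : ℝ :=
  ∑ k, 2 * (chi l (qq x i (R k)) / Real.sqrt (qq x i (R k) + ε ^ 2))

/-- one-body potential -/
noncomputable def aa0 (l : ℝ) (R : Fin K → Space) (i : Fin M) (x : Config M) : ℝ :=
  ∑ k, 2 * (chi l (qq x i (R k)) / Real.sqrt (qq x i (R k)))

lemma aa_continuous (l ε : ℝ) (hε : 0 < ε) (R : Fin K → Space) (i : Fin M) :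
    Continuous (aa (M := M) l ε R i) := by
  unfold aa
  refine continuous_finsetSum _ fun k _ => ?_
  have h1 := qq_continuous i (R k)
  have h2 := chi_continuous l
  refine Continuous.const_mul ?_ 2
  refine (h2.comp h1).div (by fun_prop) ?_
  intro x
  exact (sqrt_pos' hε (qq_nonneg _ _ _)).ne'

lemma aa_bound {l ε : ℝ} (hε : 0 < ε) (R : Fin K → Space) (i : Fin M) (x : Config M) :
    |aa l ε R i x| ≤ K * (2 / ε) := by
  unfold aa
  refine (Finset.abs_sum_le_sum_abs _ _).trans ?_
  have h : ∀ k ∈ (Finset.univ : Finset (Fin K)),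
      |2 * (chi l (qq x i (R k)) / Real.sqrt (qq x i (R k) + ε ^ 2))| ≤ 2 / ε := by
    intro k _
    have h1 := chi_nonneg l (qq x i (R k))
    have h2 := chi_le_one l (qq x i (R k))
    have hq := qq_nonneg x i (R k)
    have hs := sqrt_pos' hε hq
    have hse : ε ≤ Real.sqrt (qq x i (R k) + ε ^ 2) := by
      apply Real.le_sqrt_of_sq_le
      linarith
    rw [abs_of_nonneg (by positivity)]
    have : chi l (qq x i (R k)) / Real.sqrt (qq x i (R k) + ε ^ 2) ≤ 1 / ε :=
      div_le_div₀ zero_le_one h2 hε hse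
    have h5 : 2 / ε = 2 * (1 / ε) := by ring
    rw [h5]
    linarith
  refine (Finset.sum_le_sum h).trans ?_
  rw [Finset.sum_const, Finset.card_univ, Fintype.card_fin, nsmul_eq_mul]

lemma Gf_bound {l ε : ℝ} (hε : 0 < ε) (R : Fin K → Space) (i : Fin M) (c : Fin 3)
    (x : Config M) : |Gf l ε R i c x| ≤ K * 1 := by
  unfold Gf
  refine (Finset.abs_sum_le_sum_abs _ _).trans ?_
  refine (Finset.sum_le_sum (g := fun _ => (1 : ℝ)) fun k _ =>
    hh_bound hε (qq_nonneg _ _ _) (le_qq x i c (R k))).trans ?_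
  rw [Finset.sum_const, Finset.card_univ, Fintype.card_fin, nsmul_eq_mul]

lemma Gf'_bound {C : ℝ} (hC : ∀ x, |deriv Real.smoothTransition x| ≤ C) {l ε : ℝ} (hl : 0 < l)
    (hε : 0 < ε) (R : Fin K → Space) (i : Fin M) (c : Fin 3)
    (x : Config M) : |Gf' l ε R i c x| ≤ K * (2 * (8 / 3 * C / l) + 2 / ε) := by
  unfold Gf'
  refine (Finset.abs_sum_le_sum_abs _ _).trans ?_
  refine (Finset.sum_le_sum (g := fun _ => 2 * (8 / 3 * C / l) + 2 / ε) fun k _ =>
    hh'_bound hC hl hε (qq_nonneg _ _ _) (le_qq x i c (R k))).trans ?_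
  rw [Finset.sum_const, Finset.card_univ, Fintype.card_fin, nsmul_eq_mul]

/-- Regularised lower bound for the kinetic energy of electron `i`. -/
lemma kin_lower_reg {l ε : ℝ} (hl : 0 < l) (hε : 0 < ε) {R : Fin K → Space} (hsep : Sep l R)
    (f : 𝓢(Config M, ℂ)) (i : Fin M) :
    ∫ x : Config M, (aa l ε R i x - bb l R i x) * ‖f x‖ ^ 2 ≤
      ∑ c, ∫ x : Config M, ‖dv f (ee i c) x‖ ^ 2 := by
  obtain ⟨C, hC0, hC⟩ := exists_bound_deriv
  have hG : ∀ c, Integrable (fun x : Config M =>
      (Gf' l ε R i c x - Gf l ε R i c x ^ 2) * ‖f x‖ ^ 2) := by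
    intro c
    refine bdd_mul_normSq_integrable f ?_
      (A := K * (2 * (8 / 3 * C / l) + 2 / ε) + (K * 1) ^ 2) ?_
    · exact ((Gf'_continuous l ε hε R i c).sub
        ((Gf_continuous l ε hε R i c).pow 2)).aestronglyMeasurable
    · intro x
      have h1 := Gf'_bound hC hl hε R i c x
      have h2 := Gf_bound (l := l) hε R i c x
      refine (abs_sub _ _).trans (add_le_add h1 ?_)
      rw [abs_pow]
      exact pow_le_pow_left₀ (abs_nonneg _) h2 2
  have h1 : ∑ c, ∫ x : Config M, (Gf' l ε R i c x - Gf l ε R i c x ^ 2) * ‖f x‖ ^ 2 ≤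
      ∑ c, ∫ x : Config M, ‖dv f (ee i c) x‖ ^ 2 := by
    refine Finset.sum_le_sum fun c _ => ?_
    exact kin_ineq f (ee i c) (Gf_continuous l ε hε R i c).aestronglyMeasurable
      (Gf'_continuous l ε hε R i c).aestronglyMeasurable
      (Gf_bound hε R i c) (Gf'_bound hC hl hε R i c) (Gf_hasLineDerivAt l ε hε R i c)
  refine le_trans ?_ h1
  rw [← integral_finsetSum _ (fun c _ => hG c)]
  refine integral_mono ?_ (integrable_finsetSum _ fun c _ => hG c) ?_
  · refine bdd_mul_normSq_integrable f ?_
      (A := K * (2 / ε) + K * (1 + 2 * (8 / 3 * C / l))) ?_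
    · exact ((aa_continuous l ε hε R i).sub (bb_continuous l R i)).aestronglyMeasurable
    · intro x
      exact (abs_sub _ _).trans (add_le_add (aa_bound hε R i x) (bb_bound hC hl R i x))
  · intro x
    simp only
    rw [← Finset.sum_mul]
    refine mul_le_mul_of_nonneg_right ?_ (by positivity)
    exact field_bound hl hε hsep i x

lemma att_int (f : 𝓢(Config M, ℂ)) (i : Fin M) (P : Space) :
    Integrable (fun x : Config M => 1 / Real.sqrt (qq x i P) * ‖f x‖ ^ 2) :=
  att_integrable (n := Fin M) f i (WithLp.ofLp P)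

lemma aa0_int (l : ℝ) (R : Fin K → Space) (f : 𝓢(Config M, ℂ)) (i : Fin M) :
    Integrable (fun x : Config M => aa0 l R i x * ‖f x‖ ^ 2) := by
  have h : ∀ k ∈ (Finset.univ : Finset (Fin K)), Integrable (fun x : Config M =>
      2 * (chi l (qq x i (R k)) / Real.sqrt (qq x i (R k))) * ‖f x‖ ^ 2) := by
    intro k _
    refine Integrable.mono' ((att_int f i (R k)).const_mul 2) ?_ ?_
    · apply Measurable.aestronglyMeasurable
      have h1 := (qq_continuous i (R k)).measurable
      have h2 := (chi_continuous l).measurable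
      have h3 : Measurable fun x : Config M => ‖f x‖ ^ 2 := by
        have : Continuous fun x : Config M => ‖f x‖ ^ 2 := by fun_prop
        exact this.measurable
      exact (((h2.comp h1).div h1.sqrt).const_mul 2).mul h3
    · refine Filter.Eventually.of_forall fun x => ?_
      have h1 := chi_nonneg l (qq x i (R k))
      have h2 := chi_le_one l (qq x i (R k))
      rw [Real.norm_of_nonneg (by positivity), mul_assoc]
      refine mul_le_mul_of_nonneg_left ?_ (by norm_num)
      refine mul_le_mul_of_nonneg_right ?_ (by positivity)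
      exact div_le_div_of_nonneg_right h2 (Real.sqrt_nonneg _)
  have h2 := integrable_finsetSum _ h
  refine h2.congr (Filter.Eventually.of_forall fun x => ?_)
  simp only
  unfold aa0
  rw [Finset.sum_mul]

lemma bb_int {l : ℝ} (hl : 0 < l) (R : Fin K → Space) (f : 𝓢(Config M, ℂ)) (i : Fin M) :
    Integrable (fun x : Config M => bb l R i x * ‖f x‖ ^ 2) := by
  obtain ⟨C, hC0, hC⟩ := exists_bound_deriv
  exact bdd_mul_normSq_integrable f (bb_continuous l R i).aestronglyMeasurable
    (bb_bound hC hl R i)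

/-- Lower bound for the kinetic energy of electron `i`. -/
lemma kin_lower {l : ℝ} (hl : 0 < l) {R : Fin K → Space} (hsep : Sep l R)
    (f : 𝓢(Config M, ℂ)) (i : Fin M) :
    ∫ x : Config M, (aa0 l R i x - bb l R i x) * ‖f x‖ ^ 2 ≤
      ∑ c, ∫ x : Config M, ‖dv f (ee i c) x‖ ^ 2 := by
  set T : ℝ := ∑ c, ∫ x : Config M, ‖dv f (ee i c) x‖ ^ 2 with hT
  let ε : ℕ → ℝ := fun n => 1 / ((n : ℝ) + 1)
  have hε : ∀ n, 0 < ε n := fun n => by positivity
  have hlim : Filter.Tendsto (fun n => ∫ x : Config M,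
      (aa l (ε n) R i x - bb l R i x) * ‖f x‖ ^ 2) Filter.atTop
      (nhds (∫ x : Config M, (aa0 l R i x - bb l R i x) * ‖f x‖ ^ 2)) := by
    refine tendsto_integral_of_dominated_convergence
      (fun x => aa0 l R i x * ‖f x‖ ^ 2 + ‖bb l R i x * ‖f x‖ ^ 2‖) ?_ ?_ ?_ ?_
    · intro n
      have h1 := (aa_continuous (M := M) l (ε n) (hε n) R i)
      have h2 := bb_continuous (M := M) l R i
      exact (Continuous.mul (h1.sub h2) (by fun_prop)).aestronglyMeasurable
    · exact (aa0_int l R f i).add (bb_int hl R f i).norm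
    · intro n
      have hae : ∀ᵐ x : Config M, ∀ k, qq x i (R k) ≠ 0 := by
        rw [ae_all_iff]
        exact fun k => ae_qq_ne_zero i (R k)
      filter_upwards [hae] with x hx
      have h0 : 0 ≤ aa l (ε n) R i x := by
        unfold aa
        refine Finset.sum_nonneg fun k _ => ?_
        have := chi_nonneg l (qq x i (R k))
        positivity
      have h1 : aa l (ε n) R i x ≤ aa0 l R i x := by
        unfold aa aa0
        refine Finset.sum_le_sum fun k _ => ?_
        have h1 := chi_nonneg l (qq x i (R k))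
        have h2 : 0 < qq x i (R k) := lt_of_le_of_ne (qq_nonneg _ _ _) (hx k).symm
        have h3 : 0 < Real.sqrt (qq x i (R k)) := Real.sqrt_pos.mpr h2
        refine mul_le_mul_of_nonneg_left ?_ (by norm_num)
        refine div_le_div_of_nonneg_left h1 h3 ?_
        exact Real.sqrt_le_sqrt (by nlinarith [sq_nonneg (ε n)])
      rw [sub_mul]
      refine (norm_sub_le _ _).trans ?_
      refine add_le_add ?_ le_rfl
      rw [Real.norm_of_nonneg (by positivity)]
      exact mul_le_mul_of_nonneg_right h1 (by positivity)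
    · have hae : ∀ᵐ x : Config M, ∀ k, qq x i (R k) ≠ 0 := by
        rw [ae_all_iff]
        exact fun k => ae_qq_ne_zero i (R k)
      filter_upwards [hae] with x hx
      have hε0 : Filter.Tendsto ε Filter.atTop (nhds 0) := tendsto_one_div_add_atTop_nhds_zero_nat
      have haa : Filter.Tendsto (fun n => aa l (ε n) R i x) Filter.atTop
          (nhds (aa0 l R i x)) := by
        unfold aa aa0
        refine tendsto_finset_sum _ fun k _ => ?_
        refine Filter.Tendsto.const_mul 2 ?_
        refine Filter.Tendsto.div tendsto_const_nhds ?_ ?_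
        · have h1 : Filter.Tendsto (fun n => qq x i (R k) + ε n ^ 2) Filter.atTop
              (nhds (qq x i (R k))) := by
            have h2 := (hε0.pow 2).const_add (qq x i (R k))
            simpa using h2
          exact (Real.continuous_sqrt.tendsto _).comp h1
        · have h2 : 0 < qq x i (R k) := lt_of_le_of_ne (qq_nonneg _ _ _) (hx k).symm
          exact (Real.sqrt_pos.mpr h2).ne'
      exact (haa.sub_const _).mul_const _
  exact le_of_tendsto' hlim fun n => kin_lower_reg hl (hε n) hsep f i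

end Pool.Agent.Helper67.Conv
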