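import Pool.Agent.Helper67.Conv.OneBody

set_option autoImplicit false
set_option linter.unusedSectionVars false
open MeasureTheory SchwartzMap
open scoped RealInnerProductSpace

namespace Pool.Agent.Helper67.Conv

lemma null_of_linear {E : Type*} [NormedAddCommGroup E] [InnerProductSpace ℝ E]
    [FiniteDimensional ℝ E] [MeasurableSpace E] [BorelSpace E] (L : E →ₗ[ℝ] ℝ) (v : E)
    (hv : L v ≠ 0) (a : ℝ) : ∀ᵐ x : E, L x ≠ a := by
  have h0 : volume (LinearMap.ker L : Set E) = 0 := by
    apply Measure.addHaar_submodule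
    intro h
    rw [LinearMap.ker_eq_top] at h
    exact hv (by rw [h]; rfl)
  obtain ⟨x0, hx0⟩ : ∃ x0, L x0 = a := ⟨(a / L v) • v, by
    rw [map_smul, smul_eq_mul, div_mul_cancel₀ _ hv]⟩
  have h1 : volume ((fun x => x - x0) ⁻¹' (LinearMap.ker L : Set E)) = 0 := by
    simp only [sub_eq_add_neg]
    rw [measure_preimage_add_right]
    exact h0
  rw [ae_iff]
  refine measure_mono_null ?_ h1
  intro x hx
  simp only [ne_eq, not_not, Set.mem_setOf_eq] at hx
  simp only [Set.mem_preimage, SetLike.mem_coe, LinearMap.mem_ker, map_sub, hx, hx0, sub_self]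

variable {M K : ℕ}

/-- coordinate functional -/
noncomputable def coordL (M : ℕ) (p : Fin M × Fin 3) : Config M →ₗ[ℝ] ℝ :=
  (EuclideanSpace.proj (𝕜 := ℝ) p : Config M →L[ℝ] ℝ).toLinearMap

lemma coordL_apply (p : Fin M × Fin 3) (x : Config M) : coordL M p x = WithLp.ofLp x p := rfl

lemma ae_qq_ne_zero (i : Fin M) (P : Space) : ∀ᵐ x : Config M, qq x i P ≠ 0 := by
  have h := null_of_linear (coordL M (i, 0)) (ee i 0) (by
    rw [coordL_apply]
    simp [ee]) (WithLp.ofLp P 0)
  filter_upwards [h] with x hx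
  intro h0
  apply hx
  rw [coordL_apply]
  have h1 := le_qq x i 0 P
  rw [h0] at h1
  have h2 : (WithLp.ofLp x (i, 0) - WithLp.ofLp P 0) ^ 2 = 0 := le_antisymm h1 (sq_nonneg _)
  have h3 := pow_eq_zero_iff (two_ne_zero) |>.mp h2
  linarith

lemma ae_pos_ne (i j : Fin M) (hij : i ≠ j) : ∀ᵐ x : Config M, pos x i ≠ pos x j := by
  have h := null_of_linear (coordL M (i, 0) - coordL M (j, 0)) (ee i 0) (by
    rw [LinearMap.sub_apply, coordL_apply, coordL_apply]
    have : (j, (0 : Fin 3)) ≠ (i, (0 : Fin 3)) := by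
      intro h
      exact hij (Prod.ext_iff.mp h).1.symm
    simp [ee, hij.symm]) 0
  filter_upwards [h] with x hx
  intro h0
  apply hx
  rw [LinearMap.sub_apply, coordL_apply, coordL_apply]
  have h1 := congrArg (fun y : Space => WithLp.ofLp y 0) h0
  simp only [pos] at h1
  linarith

end Pool.Agent.Helper67.Conv
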