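import Pool.Agent.Helper67.Conv.Field

set_option autoImplicit false
set_option linter.unusedSectionVars false
open MeasureTheory SchwartzMap
open scoped RealInnerProductSpace

namespace Pool.Agent.Helper67.Conv

variable {M K : ℕ}

/-- squared distance of electron `i` to the point `P`. -/
noncomputable def qq (x : Config M) (i : Fin M) (P : Space) : ℝ :=
  ∑ c : Fin 3, (WithLp.ofLp x (i, c) - WithLp.ofLp P c) ^ 2

lemma qq_nonneg (x : Config M) (i : Fin M) (P : Space) : 0 ≤ qq x i P :=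
  Finset.sum_nonneg fun c _ => sq_nonneg _

lemma norm_pos_sub (x : Config M) (i : Fin M) (P : Space) :
    ‖pos x i - P‖ = Real.sqrt (qq x i P) := by
  rw [EuclideanSpace.norm_eq]
  simp [pos, qq]

lemma sq_norm_pos_sub (x : Config M) (i : Fin M) (P : Space) :
    ‖pos x i - P‖ ^ 2 = qq x i P := by
  rw [norm_pos_sub, Real.sq_sqrt (qq_nonneg x i P)]

/-- unit vectors -/
noncomputable def ee (i : Fin M) (c : Fin 3) : Config M := EuclideanSpace.single (i, c) 1

lemma add_ee (x : Config M) (i : Fin M) (c c' : Fin 3) (t : ℝ) :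
    WithLp.ofLp (x + t • ee i c) (i, c') = WithLp.ofLp x (i, c') + if c' = c then t else 0 := by
  by_cases h : c' = c
  · subst h
    simp [ee]
  · simp [ee, h]

lemma qq_add (x : Config M) (i : Fin M) (c : Fin 3) (t : ℝ) (P : Space) :
    qq (x + t • ee i c) i P =
      qq x i P + 2 * t * (WithLp.ofLp x (i, c) - WithLp.ofLp P c) + t ^ 2 := by
  unfold qq
  have h : ∀ c' : Fin 3, (WithLp.ofLp (x + t • ee i c) (i, c') - WithLp.ofLp P c') ^ 2 =
      (WithLp.ofLp x (i, c') - WithLp.ofLp P c') ^ 2 +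
        (if c' = c then 2 * t * (WithLp.ofLp x (i, c) - WithLp.ofLp P c) + t ^ 2 else 0) := by
    intro c'
    rw [add_ee]
    by_cases h : c' = c
    · subst h
      simp only [if_true]
      ring
    · simp [h]
  simp_rw [h]
  rw [Finset.sum_add_distrib, Finset.sum_ite_eq' Finset.univ c]
  simp only [Finset.mem_univ, if_true]
  ring

/-- The vector field. -/
noncomputable def Gf (l ε : ℝ) (R : Fin K → Space) (i : Fin M) (c : Fin 3) (x : Config M) : ℝ :=
  ∑ k, hh l ε (qq x i (R k)) (WithLp.ofLp x (i, c) - WithLp.ofLp (R k) c)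

/-- The derivative of its `c`-th component in direction `c`. -/
noncomputable def Gf' (l ε : ℝ) (R : Fin K → Space) (i : Fin M) (c : Fin 3) (x : Config M) : ℝ :=
  ∑ k, hh' l ε (qq x i (R k)) (WithLp.ofLp x (i, c) - WithLp.ofLp (R k) c)

lemma Gf_hasLineDerivAt (l ε : ℝ) (hε : 0 < ε) (R : Fin K → Space) (i : Fin M) (c : Fin 3)
    (x : Config M) :
    HasLineDerivAt ℝ (Gf l ε R i c) (Gf' l ε R i c x) x (ee i c) := by
  unfold HasLineDerivAt
  have h : (fun t : ℝ => Gf l ε R i c (x + t • ee i c)) = fun t : ℝ =>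
      ∑ k, hh l ε (qq x i (R k) + 2 * t * (WithLp.ofLp x (i, c) - WithLp.ofLp (R k) c) + t ^ 2)
        ((WithLp.ofLp x (i, c) - WithLp.ofLp (R k) c) + t) := by
    funext t
    unfold Gf
    refine Finset.sum_congr rfl fun k _ => ?_
    rw [qq_add, add_ee]
    simp only [if_true]
    congr 1
    ring
  rw [h]
  unfold Gf'
  apply HasDerivAt.fun_sum
  intro k _
  exact hh_hasDerivAt l ε _ _ hε (qq_nonneg _ _ _)

lemma qq_continuous (i : Fin M) (P : Space) : Continuous (fun x : Config M => qq x i P) := by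
  unfold qq
  fun_prop

lemma sqrt_pos' {ε q : ℝ} (hε : 0 < ε) (hq : 0 ≤ q) : 0 < Real.sqrt (q + ε ^ 2) :=
  Real.sqrt_pos.mpr (by positivity)

lemma Gf_continuous (l ε : ℝ) (hε : 0 < ε) (R : Fin K → Space) (i : Fin M) (c : Fin 3) :
    Continuous (Gf (M := M) l ε R i c) := by
  unfold Gf hh
  refine continuous_finset_sum _ fun k _ => ?_
  have h1 := qq_continuous i (R k)
  have h2 := chi_continuous l
  refine (h2.comp h1).mul (Continuous.div (by fun_prop) (by fun_prop) ?_)
  intro x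
  exact (sqrt_pos' hε (qq_nonneg _ _ _)).ne'

lemma Gf'_continuous (l ε : ℝ) (hε : 0 < ε) (R : Fin K → Space) (i : Fin M) (c : Fin 3) :
    Continuous (Gf' (M := M) l ε R i c) := by
  unfold Gf' hh'
  refine continuous_finset_sum _ fun k _ => ?_
  have h1 := qq_continuous i (R k)
  have h2 := chi_continuous l
  have h3 := chi'_continuous l
  have hne : ∀ x : Config M, Real.sqrt (qq x i (R k) + ε ^ 2) ≠ 0 :=
    fun x => (sqrt_pos' hε (qq_nonneg _ _ _)).ne'
  refine Continuous.add ?_ ?_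
  · refine ((h3.comp h1).const_mul 2).mul (Continuous.div (by fun_prop) (by fun_prop) hne)
  · refine (h2.comp h1).mul (Continuous.sub ?_ ?_)
    · exact Continuous.div (by fun_prop) (by fun_prop) hne
    · refine Continuous.div (by fun_prop) (by fun_prop) ?_
      intro x
      exact pow_ne_zero 3 (hne x)

lemma le_qq (x : Config M) (i : Fin M) (c : Fin 3) (P : Space) :
    (WithLp.ofLp x (i, c) - WithLp.ofLp P c) ^ 2 ≤ qq x i P := by
  unfold qq
  exact Finset.single_le_sum (f := fun c => (WithLp.ofLp x (i, c) - WithLp.ofLp P c) ^ 2)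
    (fun c _ => sq_nonneg _) (Finset.mem_univ c)

lemma abs_le_sqrt' {ε q u : ℝ} (hu : u ^ 2 ≤ q) : |u| ≤ Real.sqrt (q + ε ^ 2) := by
  apply Real.abs_le_sqrt
  nlinarith [sq_nonneg ε]

lemma hh_bound {l ε q u : ℝ} (hε : 0 < ε) (hq : 0 ≤ q) (hu : u ^ 2 ≤ q) : |hh l ε q u| ≤ 1 := by
  unfold hh
  have hs := sqrt_pos' hε hq
  rw [abs_mul, abs_div, abs_of_pos hs, abs_of_nonneg (chi_nonneg l q)]
  have h1 : |u| / Real.sqrt (q + ε ^ 2) ≤ 1 := by
    rw [div_le_one hs]
    exact abs_le_sqrt' hu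
  have h2 := chi_le_one l q
  have h3 := chi_nonneg l q
  have h4 : 0 ≤ |u| / Real.sqrt (q + ε ^ 2) := by positivity
  nlinarith

lemma hh'_bound {C : ℝ} (hC : ∀ x, |deriv Real.smoothTransition x| ≤ C) {l ε q u : ℝ}
    (hl : 0 < l) (hε : 0 < ε) (hq : 0 ≤ q) (hu : u ^ 2 ≤ q) :
    |hh' l ε q u| ≤ 2 * (8 / 3 * C / l) + 2 / ε := by
  have hs := sqrt_pos' hε hq
  have hC0 : 0 ≤ C := (abs_nonneg _).trans (hC 0)
  have hse : ε ≤ Real.sqrt (q + ε ^ 2) := by
    apply Real.le_sqrt_of_sq_le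
    linarith
  have hsq : Real.sqrt q ≤ Real.sqrt (q + ε ^ 2) := Real.sqrt_le_sqrt (by nlinarith)
  have hu2 : u ^ 2 / Real.sqrt (q + ε ^ 2) ≤ Real.sqrt q := by
    rw [div_le_iff₀ hs]
    calc u ^ 2 ≤ q := hu
      _ = Real.sqrt q * Real.sqrt q := (Real.mul_self_sqrt hq).symm
      _ ≤ Real.sqrt q * Real.sqrt (q + ε ^ 2) :=
        mul_le_mul_of_nonneg_left hsq (Real.sqrt_nonneg _)
  have hu2' : 0 ≤ u ^ 2 / Real.sqrt (q + ε ^ 2) := by positivity
  have hc' := chi'_nonpos l q
  have hb := chi'_bound hC (q := q) hl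
  have ht := tt_le_one l q
  have ht0 := tt_nonneg l q
  have e1 : |2 * chi' l q * (u ^ 2 / Real.sqrt (q + ε ^ 2))| ≤ 2 * (8 / 3 * C / l) := by
    rw [abs_mul, abs_of_nonneg hu2', abs_mul, abs_two, abs_of_nonpos hc']
    have h1 : -chi' l q * (u ^ 2 / Real.sqrt (q + ε ^ 2)) ≤ -chi' l q * Real.sqrt q :=
      mul_le_mul_of_nonneg_left hu2 (by linarith)
    have h2 : 8 / 3 * C / l * tt l q ≤ 8 / 3 * C / l := by
      have : 0 ≤ 8 / 3 * C / l := by positivity
      nlinarith
    nlinarith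
  have e2 : |chi l q * (1 / Real.sqrt (q + ε ^ 2) - u ^ 2 / (Real.sqrt (q + ε ^ 2)) ^ 3)| ≤
      2 / ε := by
    rw [abs_mul, abs_of_nonneg (chi_nonneg l q)]
    have h1 : |1 / Real.sqrt (q + ε ^ 2) - u ^ 2 / (Real.sqrt (q + ε ^ 2)) ^ 3| ≤ 1 / ε := by
      have a1 : u ^ 2 / (Real.sqrt (q + ε ^ 2)) ^ 3 ≤ 1 / Real.sqrt (q + ε ^ 2) := by
        rw [div_le_div_iff₀ (by positivity) hs]
        have : u ^ 2 ≤ (Real.sqrt (q + ε ^ 2)) ^ 2 := by
          rw [Real.sq_sqrt (by positivity)]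
          nlinarith [sq_nonneg ε]
        nlinarith
      have a2 : 0 ≤ u ^ 2 / (Real.sqrt (q + ε ^ 2)) ^ 3 := by positivity
      have a3 : 1 / Real.sqrt (q + ε ^ 2) ≤ 1 / ε := one_div_le_one_div_of_le hε hse
      rw [abs_of_nonneg (by linarith)]
      linarith
    have h2 := chi_le_one l q
    have h3 := chi_nonneg l q
    have h4 : 0 ≤ 1 / ε := by positivity
    have h5 : 2 / ε = 1 / ε + 1 / ε := by ring
    nlinarith [abs_nonneg (1 / Real.sqrt (q + ε ^ 2) - u ^ 2 / (Real.sqrt (q + ε ^ 2)) ^ 3)]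
  unfold hh'
  exact (abs_add_le _ _).trans (add_le_add e1 e2)

/-- The limiting one body potential bound (twice the kinetic energy). -/
noncomputable def bb (l : ℝ) (R : Fin K → Space) (i : Fin M) (x : Config M) : ℝ :=
  ∑ k, (chi l (qq x i (R k)) ^ 2 - 2 * (chi' l (qq x i (R k)) * Real.sqrt (qq x i (R k))))

/-- Separated nuclei. -/
def Sep (l : ℝ) (R : Fin K → Space) : Prop := ∀ j k, j ≠ k → 2 * l ≤ ‖R j - R k‖

lemma sep_unique {l : ℝ} {R : Fin K → Space} (hsep : Sep l R) (x : Config M) (i : Fin M)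
    {j k : Fin K} (hj : qq x i (R j) < l ^ 2) (hl : 0 < l) (hne : k ≠ j) :
    l ^ 2 ≤ qq x i (R k) := by
  have h1 : ‖pos x i - R j‖ < l := by
    rw [norm_pos_sub]
    rw [Real.sqrt_lt' hl]
    exact hj
  have h2 := hsep k j hne
  have h3 : ‖R k - R j‖ ≤ ‖pos x i - R k‖ + ‖pos x i - R j‖ := by
    have : R k - R j = -(pos x i - R k) + (pos x i - R j) := by abel
    rw [this]
    refine (norm_add_le _ _).trans ?_
    rw [norm_neg]
  have h4 : l ≤ ‖pos x i - R k‖ := by linarith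
  rw [← sq_norm_pos_sub]
  exact pow_le_pow_left₀ hl.le h4 2

/-- The pointwise bound for the regularised field. -/
lemma field_bound {l ε : ℝ} (hl : 0 < l) (hε : 0 < ε) {R : Fin K → Space} (hsep : Sep l R)
    (i : Fin M) (x : Config M) :
    (∑ k, 2 * (chi l (qq x i (R k)) / Real.sqrt (qq x i (R k) + ε ^ 2))) - bb l R i x ≤
      ∑ c, (Gf' l ε R i c x - Gf l ε R i c x ^ 2) := by
  -- derivative part
  have h1 : ∀ k : Fin K, 2 * (chi l (qq x i (R k)) / Real.sqrt (qq x i (R k) + ε ^ 2)) +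
      2 * (chi' l (qq x i (R k)) * Real.sqrt (qq x i (R k))) ≤
      ∑ c, hh' l ε (qq x i (R k)) (WithLp.ofLp x (i, c) - WithLp.ofLp (R k) c) := by
    intro k
    set q := qq x i (R k) with hqdef
    have hq : 0 ≤ q := qq_nonneg _ _ _
    have hs := sqrt_pos' hε hq
    set s := Real.sqrt (q + ε ^ 2) with hsdef
    have hs2 : s ^ 2 = q + ε ^ 2 := Real.sq_sqrt (by positivity)
    have e1 : ∑ c, hh' l ε q (WithLp.ofLp x (i, c) - WithLp.ofLp (R k) c) =
        2 * chi' l q * (q / s) + chi l q * (3 / s - q / s ^ 3) := by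
      have hq3 : ∑ c, (WithLp.ofLp x (i, c) - WithLp.ofLp (R k) c) ^ 2 = q := rfl
      have gen : ∀ A B : ℝ, ∑ c, (2 * A * ((WithLp.ofLp x (i, c) - WithLp.ofLp (R k) c) ^ 2 / s) +
          B * (1 / s - (WithLp.ofLp x (i, c) - WithLp.ofLp (R k) c) ^ 2 / s ^ 3)) =
          2 * A * ((∑ c, (WithLp.ofLp x (i, c) - WithLp.ofLp (R k) c) ^ 2) / s) +
          B * (3 / s - (∑ c, (WithLp.ofLp x (i, c) - WithLp.ofLp (R k) c) ^ 2) / s ^ 3) := by
        intro A B
        simp only [Fin.sum_univ_three]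
        ring
      rw [hq3] at gen
      unfold hh'
      exact gen (chi' l q) (chi l q)
    rw [e1]
    have e2 : q / s ≤ Real.sqrt q := by
      rw [div_le_iff₀ hs]
      calc q = Real.sqrt q * Real.sqrt q := (Real.mul_self_sqrt hq).symm
        _ ≤ Real.sqrt q * s :=
          mul_le_mul_of_nonneg_left (Real.sqrt_le_sqrt (by nlinarith [sq_nonneg ε]))
            (Real.sqrt_nonneg _)
    have e3 : chi' l q * Real.sqrt q ≤ chi' l q * (q / s) :=
      mul_le_mul_of_nonpos_left e2 (chi'_nonpos l q)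
    have e4 : q / s ^ 3 ≤ 1 / s := by
      rw [div_le_div_iff₀ (by positivity) hs]
      have : q ≤ s ^ 2 := by rw [hs2]; nlinarith [sq_nonneg ε]
      nlinarith
    have e5 : 2 / s ≤ 3 / s - q / s ^ 3 := by
      have : 3 / s = 2 / s + 1 / s := by ring
      linarith
    have e6 : chi l q * (2 / s) ≤ chi l q * (3 / s - q / s ^ 3) :=
      mul_le_mul_of_nonneg_left e5 (chi_nonneg l q)
    have e7 : 2 * (chi l q / s) = chi l q * (2 / s) := by ring
    rw [e7]
    linarith
  have h2 : ∑ c, Gf' l ε R i c x =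
      ∑ k, ∑ c, hh' l ε (qq x i (R k)) (WithLp.ofLp x (i, c) - WithLp.ofLp (R k) c) := by
    unfold Gf'
    rw [Finset.sum_comm]
  -- square part
  have h3 : ∑ c, Gf l ε R i c x ^ 2 ≤ ∑ k, chi l (qq x i (R k)) ^ 2 := by
    by_cases hex : ∃ j, qq x i (R j) < l ^ 2
    · obtain ⟨j, hj⟩ := hex
      have hz : ∀ k, k ≠ j → chi l (qq x i (R k)) = 0 := fun k hk =>
        chi_eq_zero hl (sep_unique hsep x i hj hl hk)
      have hG : ∀ c, Gf l ε R i c x =
          hh l ε (qq x i (R j)) (WithLp.ofLp x (i, c) - WithLp.ofLp (R j) c) := by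
        intro c
        unfold Gf
        apply Finset.sum_eq_single j
        · intro k _ hk
          unfold hh
          rw [hz k hk, zero_mul]
        · intro h
          exact absurd (Finset.mem_univ j) h
      have hR : ∑ k, chi l (qq x i (R k)) ^ 2 = chi l (qq x i (R j)) ^ 2 := by
        apply Finset.sum_eq_single j
        · intro k _ hk
          rw [hz k hk]
          norm_num
        · intro h
          exact absurd (Finset.mem_univ j) h
      rw [hR]
      simp_rw [hG]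
      unfold hh
      set q := qq x i (R j) with hqdef
      have hq : 0 ≤ q := qq_nonneg _ _ _
      have hs := sqrt_pos' hε hq
      set s := Real.sqrt (q + ε ^ 2) with hsdef
      have hs2 : s ^ 2 = q + ε ^ 2 := Real.sq_sqrt (by positivity)
      have e1 : ∑ c, (chi l q * ((WithLp.ofLp x (i, c) - WithLp.ofLp (R j) c) / s)) ^ 2 =
          chi l q ^ 2 * (q / s ^ 2) := by
        have : ∀ c, (chi l q * ((WithLp.ofLp x (i, c) - WithLp.ofLp (R j) c) / s)) ^ 2 =
            chi l q ^ 2 / s ^ 2 * (WithLp.ofLp x (i, c) - WithLp.ofLp (R j) c) ^ 2 := by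
          intro c
          ring
        simp_rw [this]
        rw [← Finset.mul_sum]
        have : ∑ c, (WithLp.ofLp x (i, c) - WithLp.ofLp (R j) c) ^ 2 = q := rfl
        rw [this]
        ring
      rw [e1]
      have e2 : q / s ^ 2 ≤ 1 := by
        rw [div_le_one (by positivity), hs2]
        nlinarith [sq_nonneg ε]
      nlinarith [sq_nonneg (chi l q)]
    · push Not at hex
      have hG : ∀ c, Gf l ε R i c x = 0 := by
        intro c
        unfold Gf
        apply Finset.sum_eq_zero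
        intro k _
        unfold hh
        rw [chi_eq_zero hl (hex k), zero_mul]
      simp_rw [hG]
      have : ∑ c : Fin 3, (0 : ℝ) ^ 2 = 0 := by simp
      rw [this]
      exact Finset.sum_nonneg fun k _ => sq_nonneg _
  have h4 := Finset.sum_le_sum (fun k (_ : k ∈ Finset.univ) => h1 k)
  rw [Finset.sum_add_distrib] at h4
  rw [Finset.sum_sub_distrib, h2]
  unfold bb
  rw [Finset.sum_sub_distrib]
  have h5 : ∑ k, 2 * (chi' l (qq x i (R k)) * Real.sqrt (qq x i (R k))) =
    ∑ k, 2 * (chi' l (qq x i (R k)) * Real.sqrt (qq x i (R k))) := rfl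
  linarith

end Pool.Agent.Helper67.Conv
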