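import Pool.Agent.Helper67.Conv.Energy

set_option autoImplicit false
set_option linter.unusedSectionVars false
open MeasureTheory SchwartzMap
open scoped RealInnerProductSpace

namespace Pool.Agent.Helper67.Conv

variable {M K : ℕ}

/-- One electron part of the lower bound potential. -/
noncomputable def tau (l : ℝ) (R : Fin K → Space) (x : Config M) (i : Fin M) : ℝ :=
  1 / 2 * (aa0 l R i x - bb l R i x) - ∑ k, 1 / ‖pos x i - R k‖

/-- Repulsion. -/
noncomputable def repul (x : Config M) : ℝ :=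
  ∑ i : Fin M, ∑ j : Fin M, if i < j then 1 / ‖pos x i - pos x j‖ else 0

lemma Theta_eq (l : ℝ) (R : Fin K → Space) (x : Config M) :
    Theta l R x = (∑ i, tau l R x i) + repul x := by
  unfold Theta potential tau repul
  rw [Finset.sum_sub_distrib]
  simp only [Nat.cast_one]
  ring

/-- The summand belonging to nucleus `k`. -/
noncomputable def term (l q : ℝ) : ℝ :=
  chi l q / Real.sqrt q - 1 / 2 * chi l q ^ 2 + chi' l q * Real.sqrt q - 1 / Real.sqrt q

lemma tau_eq (l : ℝ) (R : Fin K → Space) (x : Config M) (i : Fin M) :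
    tau l R x i = ∑ k, term l (qq x i (R k)) := by
  unfold tau aa0 bb term
  simp only [norm_pos_sub]
  rw [← Finset.sum_sub_distrib, Finset.mul_sum, ← Finset.sum_sub_distrib]
  refine Finset.sum_congr rfl fun k _ => ?_
  ring

lemma term_far {l q : ℝ} (hl : 0 < l) (h : l ^ 2 ≤ q) : term l q = - (1 / Real.sqrt q) := by
  unfold term
  rw [chi_eq_zero hl h, chi'_eq_zero hl h]
  ring

lemma term_far_ge {l q : ℝ} (hl : 0 < l) (h : l ^ 2 ≤ q) : -(1 / l) ≤ term l q := by
  rw [term_far hl h]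
  have : l ≤ Real.sqrt q := Real.le_sqrt_of_sq_le h
  have := one_div_le_one_div_of_le hl this
  linarith

lemma term_near {C : ℝ} (hC : ∀ x, |deriv Real.smoothTransition x| ≤ C) {l q : ℝ}
    (hl : 8 ≤ l) (hq : 0 ≤ q) : -(1 / 2) - 64 / 9 * C ^ 2 / l ^ 2 ≤ term l q := by
  have hl0 : 0 < l := by linarith
  have hC0 : 0 ≤ C := (abs_nonneg _).trans (hC 0)
  have h1 := chi'_bound hC (q := q) hl0
  have hT0 := tt_nonneg l q
  have hT1 := tt_le_one l q
  have h2 : tt l q ^ 2 / Real.sqrt q ≤ tt l q ^ 2 / 4 := by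
    by_cases hc : q ≤ l ^ 2 / 4
    · rw [tt_eq_zero hl0 hc]
      norm_num
    · have : 4 ≤ Real.sqrt q := by
        apply Real.le_sqrt_of_sq_le
        nlinarith
      exact div_le_div_of_nonneg_left (by positivity) (by norm_num) this
  have h3 : term l q = - (tt l q ^ 2 / Real.sqrt q) - 1 / 2 * (1 - tt l q ^ 2) ^ 2 +
      chi' l q * Real.sqrt q := by
    unfold term chi
    ring
  rw [h3]
  have h4 : 64 / 9 * C ^ 2 / l ^ 2 = (8 / 3 * C / l) ^ 2 := by ring
  rw [h4]
  set a := 8 / 3 * C / l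
  nlinarith [sq_nonneg (tt l q / 2 - a), mul_nonneg hT0 hT0,
    mul_nonneg (mul_nonneg hT0 hT0) (mul_nonneg (sub_nonneg.mpr hT1) (by linarith : 0 ≤ 1 + tt l q))]

/-- Constant for the near bound. -/
noncomputable def cc (C l : ℝ) : ℝ := 64 / 9 * C ^ 2 / l ^ 2

lemma cc_nonneg (C l : ℝ) : 0 ≤ cc C l := by unfold cc; positivity

lemma tau_near {C : ℝ} (hC : ∀ x, |deriv Real.smoothTransition x| ≤ C) {l : ℝ}
    (hl : 8 ≤ l) {R : Fin K → Space} (hsep : Sep l R) (x : Config M) (i : Fin M) (j : Fin K)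
    (hj : qq x i (R j) < l ^ 2) :
    -(1 / 2) - cc C l - ∑ k ∈ Finset.univ.erase j, 1 / ‖pos x i - R k‖ ≤ tau l R x i := by
  have hl0 : 0 < l := by linarith
  rw [tau_eq, ← Finset.add_sum_erase _ _ (Finset.mem_univ j)]
  have h1 := term_near hC hl (qq_nonneg x i (R j))
  have h2 : ∑ k ∈ Finset.univ.erase j, term l (qq x i (R k)) =
      - ∑ k ∈ Finset.univ.erase j, 1 / ‖pos x i - R k‖ := by
    rw [← Finset.sum_neg_distrib]
    refine Finset.sum_congr rfl fun k hk => ?_
    rw [term_far hl0 (sep_unique hsep x i hj hl0 (Finset.ne_of_mem_erase hk)), norm_pos_sub]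
  rw [h2]
  unfold cc
  linarith

lemma tau_near' {C : ℝ} (hC : ∀ x, |deriv Real.smoothTransition x| ≤ C) {l : ℝ}
    (hl : 8 ≤ l) {R : Fin K → Space} (hsep : Sep l R) (x : Config M) (i : Fin M) (j : Fin K)
    (hj : qq x i (R j) < l ^ 2) :
    -(1 / 2) - cc C l - K / l ≤ tau l R x i := by
  have hl0 : 0 < l := by linarith
  rw [tau_eq, ← Finset.add_sum_erase _ _ (Finset.mem_univ j)]
  have h1 := term_near hC hl (qq_nonneg x i (R j))
  have h2 : -(K / l) ≤ ∑ k ∈ Finset.univ.erase j, term l (qq x i (R k)) := by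
    have h3 : ∑ k ∈ Finset.univ.erase j, -(1 / l) ≤
        ∑ k ∈ Finset.univ.erase j, term l (qq x i (R k)) := by
      refine Finset.sum_le_sum fun k hk => ?_
      exact term_far_ge hl0 (sep_unique hsep x i hj hl0 (Finset.ne_of_mem_erase hk))
    refine le_trans ?_ h3
    rw [Finset.sum_const, nsmul_eq_mul]
    have h4 : ((Finset.univ.erase j).card : ℝ) ≤ K := by
      have := Finset.card_erase_le (s := (Finset.univ : Finset (Fin K))) (a := j)
      rw [Finset.card_univ, Fintype.card_fin] at this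
      exact_mod_cast this
    have h5 : (K : ℝ) / l = K * (1 / l) := by ring
    rw [h5, mul_neg]
    have : 0 ≤ 1 / l := by positivity
    have := mul_le_mul_of_nonneg_right h4 this
    linarith
  unfold cc
  linarith

lemma tau_far {l : ℝ} (hl : 0 < l) {R : Fin K → Space} (x : Config M) (i : Fin M)
    (h : ∀ j, l ^ 2 ≤ qq x i (R j)) : -(K / l) ≤ tau l R x i := by
  rw [tau_eq]
  have h3 : ∑ k : Fin K, -(1 / l) ≤ ∑ k, term l (qq x i (R k)) :=
    Finset.sum_le_sum fun k _ => term_far_ge hl (h k)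
  refine le_trans ?_ h3
  rw [Finset.sum_const, nsmul_eq_mul, Finset.card_univ, Fintype.card_fin]
  apply le_of_eq
  ring

lemma tau_ge {C : ℝ} (hC : ∀ x, |deriv Real.smoothTransition x| ≤ C) {l : ℝ}
    (hl : 8 ≤ l) {R : Fin K → Space} (hsep : Sep l R) (x : Config M) (i : Fin M) :
    -(1 / 2) - cc C l - K / l ≤ tau l R x i := by
  by_cases h : ∃ j, qq x i (R j) < l ^ 2
  · obtain ⟨j, hj⟩ := h
    exact tau_near' hC hl hsep x i j hj
  · push Not at h
    have := tau_far (by linarith) x i h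
    have h2 := cc_nonneg C l
    linarith

lemma repul_term_nonneg (x : Config M) (i j : Fin M) :
    0 ≤ if i < j then 1 / ‖pos x i - pos x j‖ else 0 := by
  split_ifs
  · positivity
  · exact le_rfl

lemma repul_nonneg (x : Config M) : 0 ≤ repul x :=
  Finset.sum_nonneg fun i _ => Finset.sum_nonneg fun j _ => repul_term_nonneg x i j

lemma repul_ge (x : Config M) (i j : Fin M) (hij : i < j) :
    1 / ‖pos x i - pos x j‖ ≤ repul x := by
  unfold repul
  have h1 : 1 / ‖pos x i - pos x j‖ ≤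
      ∑ j : Fin M, if i < j then 1 / ‖pos x i - pos x j‖ else 0 := by
    have := Finset.single_le_sum
      (f := fun j => if i < j then 1 / ‖pos x i - pos x j‖ else 0)
      (fun j _ => repul_term_nonneg x i j) (Finset.mem_univ j)
    simpa [hij] using this
  refine h1.trans ?_
  exact Finset.single_le_sum
    (f := fun i => ∑ j : Fin M, if i < j then 1 / ‖pos x i - pos x j‖ else 0)
    (fun i _ => Finset.sum_nonneg fun j _ => repul_term_nonneg x i j) (Finset.mem_univ i)

/-- Crude lower bound. -/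
lemma Theta_ge {C : ℝ} (hC : ∀ x, |deriv Real.smoothTransition x| ≤ C) {l : ℝ}
    (hl : 8 ≤ l) {R : Fin K → Space} (hsep : Sep l R) (x : Config M) :
    M * (-(1 / 2) - cc C l - K / l) ≤ Theta l R x := by
  rw [Theta_eq]
  have h1 : ∑ i : Fin M, (-(1 / 2) - cc C l - K / l) ≤ ∑ i, tau l R x i :=
    Finset.sum_le_sum fun i _ => tau_ge hC hl hsep x i
  rw [Finset.sum_const, nsmul_eq_mul, Finset.card_univ, Fintype.card_fin] at h1
  have := repul_nonneg x
  linarith

end Pool.Agent.Helper67.Conv
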