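import Pool.Agent.Helper67.Conv.LocalEnergy

set_option autoImplicit false
set_option linter.unusedSectionVars false
open MeasureTheory SchwartzMap
open scoped RealInnerProductSpace ContDiff

namespace Pool.Agent.Helper67.Conv

variable {M K : ℕ}

/-- The interaction part on the support of the trial function. -/
lemma potential_le {lam l : ℝ} (hl : 0 < l) (hlam : 4 * l ≤ lam) {P : Fin K → Space}
    (hP : ∀ j k, j ≠ k → 1 ≤ ‖P j - P k‖) (b : Fin M → Fin K) (hb : Function.Injective b)
    (x : Config M) (hx : ∀ i, ‖pos x i - sc lam P (b i)‖ ≤ l) :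
    potential (one K) (sc lam P) x ≤ -(∑ i, 1 / ‖pos x i - sc lam P (b i)‖) + Wc P b / lam +
      (4 * M ^ 2 + 2 * M * K) * l / lam ^ 2 := by
  have hlam0 : 0 < lam := by linarith
  have hrep : (∑ i : Fin M, ∑ j : Fin M, if i < j then 1 / ‖pos x i - pos x j‖ else 0) ≤
      ∑ i : Fin M, ∑ j : Fin M, ((1 / lam * if i < j then
          1 / ‖P (b i) - P (b j)‖ else 0) + 4 * l / lam ^ 2) := by
    refine Finset.sum_le_sum fun i _ => Finset.sum_le_sum fun j _ => ?_
    split_ifs with hij
    · have hne : b i ≠ b j := fun h => hij.ne (hb h)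
      have h1 : lam * ‖P (b i) - P (b j)‖ - 2 * l ≤ ‖pos x i - pos x j‖ := by
        rw [← norm_sc hlam0]
        have e : sc lam P (b i) - sc lam P (b j) = -(pos x i - sc lam P (b i)) +
            (pos x i - pos x j) + (pos x j - sc lam P (b j)) := by abel
        rw [e]
        have h := norm_add₃_le (a := -(pos x i - sc lam P (b i))) (b := pos x i - pos x j)
          (c := pos x j - sc lam P (b j))
        rw [norm_neg] at h
        have h2 := hx i
        have h3 := hx j
        linarith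
      refine (inv_upper (l := 2 * l) (by linarith) (by linarith) (hP _ _ hne) h1).trans ?_
      apply le_of_eq
      field_simp
      ring
    · have : 0 ≤ 4 * l / lam ^ 2 := by positivity
      rw [mul_zero]
      linarith
  have hatt : ∀ i, 1 / lam * (∑ k ∈ Finset.univ.erase (b i), 1 / ‖P (b i) - P k‖) -
      K * (2 * l / lam ^ 2) ≤ ∑ k ∈ Finset.univ.erase (b i), 1 / ‖pos x i - sc lam P k‖ := by
    intro i
    have h1 : ∑ k ∈ Finset.univ.erase (b i), (1 / lam * (1 / ‖P (b i) - P k‖ - 2 * (l / lam))) ≤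
        ∑ k ∈ Finset.univ.erase (b i), 1 / ‖pos x i - sc lam P k‖ := by
      refine Finset.sum_le_sum fun k hk => ?_
      have hne := Finset.ne_of_mem_erase hk
      have e1 : lam * ‖P (b i) - P k‖ - l ≤ ‖pos x i - sc lam P k‖ := by
        rw [← norm_sc hlam0]
        have e : sc lam P (b i) - sc lam P k = -(pos x i - sc lam P (b i)) +
            (pos x i - sc lam P k) := by abel
        rw [e]
        have h := norm_add_le (-(pos x i - sc lam P (b i))) (pos x i - sc lam P k)
        rw [norm_neg] at h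
        have h2 := hx i
        linarith
      have e2 : ‖pos x i - sc lam P k‖ ≤ lam * ‖P (b i) - P k‖ + 2 * l := by
        rw [← norm_sc hlam0]
        have e : pos x i - sc lam P k = (pos x i - sc lam P (b i)) +
            (sc lam P (b i) - sc lam P k) := by abel
        rw [e]
        have h := norm_add_le (pos x i - sc lam P (b i)) (sc lam P (b i) - sc lam P k)
        have h2 := hx i
        linarith
      have hD := hP _ _ hne.symm
      have e3 : 0 < ‖pos x i - sc lam P k‖ := by nlinarith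
      exact inv_lower hl (by linarith) hD e3 e2
    refine le_trans ?_ h1
    have c2 : ∑ k ∈ Finset.univ.erase (b i),
        (1 / lam * (1 / ‖P (b i) - P k‖ - 2 * (l / lam))) =
        1 / lam * (∑ k ∈ Finset.univ.erase (b i), 1 / ‖P (b i) - P k‖) -
        ((Finset.univ.erase (b i)).card : ℝ) * (2 * l / lam ^ 2) := by
      rw [← Finset.mul_sum, Finset.sum_sub_distrib, Finset.sum_const, nsmul_eq_mul]
      field_simp
    rw [c2]
    have c3 := card_erase_le' (b i)
    have c4 : 0 ≤ 2 * l / lam ^ 2 := by positivity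
    have c5 := mul_le_mul_of_nonneg_right c3 c4
    linarith
  have hatt2 : ∑ i : Fin M, ∑ k : Fin K, 1 / ‖pos x i - sc lam P k‖ =
      (∑ i, 1 / ‖pos x i - sc lam P (b i)‖) +
      ∑ i, ∑ k ∈ Finset.univ.erase (b i), 1 / ‖pos x i - sc lam P k‖ := by
    rw [← Finset.sum_add_distrib]
    refine Finset.sum_congr rfl fun i _ => ?_
    rw [Finset.add_sum_erase _ (fun k => 1 / ‖pos x i - sc lam P k‖) (Finset.mem_univ (b i))]
  have b3 : (∑ i : Fin M, ∑ j : Fin M, ((1 / lam * if i < j then
      1 / ‖P (b i) - P (b j)‖ else 0) + 4 * l / lam ^ 2)) =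
      1 / lam * (∑ i : Fin M, ∑ j : Fin M, if i < j then
      1 / ‖P (b i) - P (b j)‖ else 0) + M ^ 2 * (4 * l / lam ^ 2) := by
    simp only [Finset.sum_add_distrib, Finset.sum_const, Finset.card_univ, Fintype.card_fin,
      nsmul_eq_mul, ← Finset.mul_sum]
    ring
  have b4 := Finset.sum_le_sum (fun i (_ : i ∈ (Finset.univ : Finset (Fin M))) => hatt i)
  rw [Finset.sum_sub_distrib, ← Finset.mul_sum, Finset.sum_const, Finset.card_univ,
    Fintype.card_fin, nsmul_eq_mul] at b4
  unfold potential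
  simp only [Nat.cast_one]
  rw [hatt2]
  rw [b3] at hrep
  have b5 : Wc P b / lam = 1 / lam * Wc P b := by ring
  rw [b5]
  unfold Wc
  rw [mul_sub]
  have b6 : (4 * (M : ℝ) ^ 2 + 2 * M * K) * l / lam ^ 2 =
    M ^ 2 * (4 * l / lam ^ 2) + M * (K * (2 * l / lam ^ 2)) := by ring
  rw [b6]
  linarith

/-- Upper bound for the energy per particle configuration. -/
noncomputable def Eup (M K : ℕ) (P : Fin K → Space) (b : Fin M → Fin K) (lam l κ : ℝ) : ℝ :=
  M * (-(1 / 2) + κ ^ 2 + 8 / l ^ 2) + Wc P b / lam + (4 * M ^ 2 + 2 * M * K) * l / lam ^ 2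

/-- kinetic energy density after integration by parts -/
noncomputable def kd (l s : ℝ) (R : Fin K → Space) (b : Fin M → Fin K) (x : Config M) : ℝ :=
  ∑ i, 1 / 2 * ∑ c, -(Phi l s R b x * ddPhi l s R b i c x)

lemma kd_eq {l s : ℝ} (hl : 0 < l) (hs : 0 < s) (R : Fin K → Space) (b : Fin M → Fin K)
    {x : Config M} (h : Phi l s R b x ≠ 0) :
    kd l s R b x = (∑ i, 1 / 2 * (3 * GG l s (qq x i (R (b i))) +
      2 * qq x i (R (b i)) * GG' l s (qq x i (R (b i))) -
      qq x i (R (b i)) * GG l s (qq x i (R (b i))) ^ 2)) * Phi l s R b x ^ 2 := by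
  unfold kd
  rw [Finset.sum_mul]
  refine Finset.sum_congr rfl fun i _ => ?_
  simp_rw [ddPhi_eq hl hs R b i _ h]
  set G := GG l s (qq x i (R (b i)))
  set G' := GG' l s (qq x i (R (b i)))
  have hq : qq x i (R (b i)) = ∑ c, (WithLp.ofLp x (i, c) - WithLp.ofLp (R (b i)) c) ^ 2 := rfl
  rw [hq]
  simp only [Fin.sum_univ_three]
  ring

/-- The pointwise bound. -/
lemma kd_le {κ lam l : ℝ} (hκ : 0 < κ) (hκ1 : κ ≤ 1) (hl : 6 ≤ l) (hlam : 4 * l ≤ lam)
    {P : Fin K → Space} (hP : ∀ j k, j ≠ k → 1 ≤ ‖P j - P k‖) (b : Fin M → Fin K)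
    (hb : Function.Injective b) (x : Config M) (hx : ∀ i k, qq x i (sc lam P k) ≠ 0) :
    kd l (κ ^ 3) (sc lam P) b x +
      potential (one K) (sc lam P) x * Phi l (κ ^ 3) (sc lam P) b x ^ 2 ≤
      Eup M K P b lam l κ * Phi l (κ ^ 3) (sc lam P) b x ^ 2 := by
  have hl0 : 0 < l := by linarith
  have hs : 0 < κ ^ 3 := by positivity
  by_cases h : Phi l (κ ^ 3) (sc lam P) b x = 0
  · unfold kd
    rw [h]
    simp
  · rw [kd_eq hl0 hs _ _ h, ← add_mul]
    refine mul_le_mul_of_nonneg_right ?_ (by positivity)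
    have hnear : ∀ i, ‖pos x i - sc lam P (b i)‖ ≤ l := fun i =>
      ((near_iff hl0 x i _).mp (lt_of_Phi_ne hl0 h i)).le
    have h1 := potential_le hl0 hlam hP b hb x hnear
    have h2 : ∀ i, 1 / 2 * (3 * GG l (κ ^ 3) (qq x i (sc lam P (b i))) +
      2 * qq x i (sc lam P (b i)) * GG' l (κ ^ 3) (qq x i (sc lam P (b i))) -
      qq x i (sc lam P (b i)) * GG l (κ ^ 3) (qq x i (sc lam P (b i))) ^ 2) ≤
        (-(1 / 2) + κ ^ 2 + 8 / l ^ 2) + 1 / ‖pos x i - sc lam P (b i)‖ := by
      intro i
      have h3 := local_energy hκ hκ1 hl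
        (lt_of_le_of_ne (qq_nonneg x i (sc lam P (b i))) (hx i (b i)).symm)
        (lt_of_Phi_ne hl0 h i)
      rw [norm_pos_sub]
      linarith
    have h3 := Finset.sum_le_sum (fun i (_ : i ∈ (Finset.univ : Finset (Fin M))) => h2 i)
    rw [Finset.sum_add_distrib, Finset.sum_const, Finset.card_univ, Fintype.card_fin,
      nsmul_eq_mul] at h3
    unfold Eup
    linarith

lemma Phi_continuous {l s : ℝ} (hs : 0 < s) (R : Fin K → Space) (b : Fin M → Fin K) :
    Continuous (Phi (M := M) l s R b) := (Phi_contDiff hs R b).continuous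

lemma dPhi_continuous {l s : ℝ} (hs : 0 < s) (R : Fin K → Space) (b : Fin M → Fin K)
    (i : Fin M) (c : Fin 3) :
    Continuous (dPhi (M := M) l s R b i c) := (dPhi_contDiff hs R b i c).continuous

lemma ddPhi_continuous {l s : ℝ} (hs : 0 < s) (R : Fin K → Space) (b : Fin M → Fin K)
    (i : Fin M) (c : Fin 3) :
    Continuous (ddPhi (M := M) l s R b i c) := by
  unfold ddPhi
  exact (((dPhi_contDiff hs R b i c).fderiv_right (m := ∞) (by simp)).clm_apply
    contDiff_const).continuous

lemma dPhi_support {l s : ℝ} (hl : 0 < l) (R : Fin K → Space) (b : Fin M → Fin K)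
    (i : Fin M) (c : Fin 3) : HasCompactSupport (dPhi (M := M) l s R b i c) := by
  refine (Phi_support (s := s) hl R b).mono ?_
  intro x hx
  rw [Function.mem_support] at hx ⊢
  intro h
  exact hx (dPhi_zero i c h)

lemma ibp_integrable {l s : ℝ} (hl : 0 < l) (hs : 0 < s) (R : Fin K → Space)
    (b : Fin M → Fin K) (i : Fin M) (c : Fin 3) :
    Integrable (fun x : Config M => Phi l s R b x * ddPhi l s R b i c x) :=
  Continuous.integrable_of_hasCompactSupport
    ((Phi_continuous hs R b).mul (ddPhi_continuous hs R b i c)) (Phi_support hl R b).mul_right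

lemma dPhi_sq_integrable {l s : ℝ} (hl : 0 < l) (hs : 0 < s) (R : Fin K → Space)
    (b : Fin M → Fin K) (i : Fin M) (c : Fin 3) :
    Integrable (fun x : Config M => dPhi l s R b i c x * dPhi l s R b i c x) :=
  Continuous.integrable_of_hasCompactSupport
    ((dPhi_continuous hs R b i c).mul (dPhi_continuous hs R b i c))
    (dPhi_support hl R b i c).mul_right

lemma ibp {l s : ℝ} (hl : 0 < l) (hs : 0 < s) (R : Fin K → Space) (b : Fin M → Fin K)
    (i : Fin M) (c : Fin 3) :
    ∫ x : Config M, dPhi l s R b i c x ^ 2 =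
      ∫ x : Config M, -(Phi l s R b x * ddPhi l s R b i c x) := by
  have h1 : Differentiable ℝ (Phi (M := M) l s R b) :=
    (Phi_contDiff hs R b).differentiable (by simp)
  have h2 : Differentiable ℝ (dPhi (M := M) l s R b i c) :=
    (dPhi_contDiff hs R b i c).differentiable (by simp)
  have h3 : Integrable (fun x : Config M => Phi l s R b x * dPhi l s R b i c x) :=
    Continuous.integrable_of_hasCompactSupport
      ((Phi_continuous hs R b).mul (dPhi_continuous hs R b i c)) (Phi_support hl R b).mul_right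
  have := integral_bilinear_hasLineDerivAt_right_eq_neg_left_of_integrable
    (μ := (volume : Measure (Config M))) (B := ContinuousLinearMap.mul ℝ ℝ)
    (f := Phi l s R b) (f' := dPhi l s R b i c)
    (g := dPhi l s R b i c) (g' := ddPhi l s R b i c) (v := ee i c)
    (by simpa using dPhi_sq_integrable hl hs R b i c)
    (by simpa using ibp_integrable hl hs R b i c) (by simpa using h3)
    (fun x _ => (h1 x).hasFDerivAt.hasLineDerivAt (ee i c))
    (fun x _ => (h2 x).hasFDerivAt.hasLineDerivAt (ee i c))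
  simp only [ContinuousLinearMap.mul_apply'] at this
  rw [integral_neg, this, neg_neg]
  congr 1
  funext x
  ring

/-- Schwartz version -/
noncomputable def PhiS {l s : ℝ} (hl : 0 < l) (hs : 0 < s) (R : Fin K → Space)
    (b : Fin M → Fin K) : 𝓢(Config M, ℂ) :=
  HasCompactSupport.toSchwartzMap (f := fun x => ((Phi l s R b x : ℝ) : ℂ))
    ((Phi_support hl R b).comp_left (g := fun r : ℝ => (r : ℂ)) (by simp))
    (Complex.ofRealCLM.contDiff.comp (Phi_contDiff hs R b))

lemma PhiS_apply {l s : ℝ} (hl : 0 < l) (hs : 0 < s) (R : Fin K → Space)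
    (b : Fin M → Fin K) (x : Config M) : PhiS hl hs R b x = ((Phi l s R b x : ℝ) : ℂ) := rfl

lemma norm_PhiS {l s : ℝ} (hl : 0 < l) (hs : 0 < s) (R : Fin K → Space)
    (b : Fin M → Fin K) (x : Config M) : ‖PhiS hl hs R b x‖ ^ 2 = Phi l s R b x ^ 2 := by
  rw [PhiS_apply, Complex.norm_real, Real.norm_eq_abs, sq_abs]

/-- Energy bound for one product function. -/
lemma product_energy {κ lam l : ℝ} (hκ : 0 < κ) (hκ1 : κ ≤ 1) (hl : 6 ≤ l) (hlam : 4 * l ≤ lam)
    {P : Fin K → Space} (hP : ∀ j k, j ≠ k → 1 ≤ ‖P j - P k‖) (b : Fin M → Fin K)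
    (hb : Function.Injective b) :
    (∑ i, 1 / 2 * ∑ c, ∫ x : Config M, dPhi l (κ ^ 3) (sc lam P) b i c x ^ 2) +
      ∫ x : Config M, potential (one K) (sc lam P) x * Phi l (κ ^ 3) (sc lam P) b x ^ 2 ≤
      Eup M K P b lam l κ * ∫ x : Config M, Phi l (κ ^ 3) (sc lam P) b x ^ 2 := by
  have hl0 : 0 < l := by linarith
  have hs : 0 < κ ^ 3 := by positivity
  have hi : ∀ i c, Integrable (fun x : Config M =>
      -(Phi l (κ ^ 3) (sc lam P) b x * ddPhi l (κ ^ 3) (sc lam P) b i c x)) :=
    fun i c => (ibp_integrable hl0 hs (sc lam P) b i c).neg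
  have hi2 : ∀ i, Integrable (fun x : Config M => 1 / 2 * ∑ c,
      -(Phi l (κ ^ 3) (sc lam P) b x * ddPhi l (κ ^ 3) (sc lam P) b i c x)) :=
    fun i => (integrable_finsetSum _ fun c _ => hi i c).const_mul (1 / 2)
  have e1 : (∑ i, 1 / 2 * ∑ c, ∫ x : Config M, dPhi l (κ ^ 3) (sc lam P) b i c x ^ 2) =
      ∫ x : Config M, kd l (κ ^ 3) (sc lam P) b x := by
    unfold kd
    rw [integral_finsetSum _ fun i _ => hi2 i]
    refine Finset.sum_congr rfl fun i _ => ?_
    rw [integral_const_mul, integral_finsetSum _ fun c _ => hi i c]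
    congr 1
    refine Finset.sum_congr rfl fun c _ => ?_
    exact ibp hl0 hs (sc lam P) b i c
  have hk : Integrable (fun x : Config M => kd l (κ ^ 3) (sc lam P) b x) := by
    unfold kd
    exact integrable_finsetSum _ fun i _ => hi2 i
  have hv : Integrable (fun x : Config M => potential (one K) (sc lam P) x *
      Phi l (κ ^ 3) (sc lam P) b x ^ 2) := by
    have := pot_int (sc lam P) (PhiS hl0 hs (sc lam P) b)
    simpa only [norm_PhiS] using this
  have hn : Integrable (fun x : Config M => Phi l (κ ^ 3) (sc lam P) b x ^ 2) := by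
    have := normSq_integrable (PhiS hl0 hs (sc lam P) b)
    simpa only [norm_PhiS] using this
  rw [e1, ← integral_add hk hv, ← integral_const_mul]
  refine integral_mono_ae (hk.add hv) (hn.const_mul _) ?_
  have hae : ∀ᵐ x : Config M, ∀ i k, qq x i (sc lam P k) ≠ 0 := by
    rw [ae_all_iff]
    intro i
    rw [ae_all_iff]
    exact fun k => ae_qq_ne_zero i (sc lam P k)
  filter_upwards [hae] with x hx
  exact kd_le hκ hκ1 hl hlam hP b hb x hx

end Pool.Agent.Helper67.Conv
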